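import Pool.Agent.H602.EX.Lift

/-!
# Sets of small doubling in torsion-free groups are isomorphic to subsets of short intervals
-/

set_option autoImplicit false

open Finset
open scoped Pointwise

namespace Pool.Agent.H602.EX

open Pool.Agent.H602.MD Pool.Agent.H602.GM Pool.Agent.H602.KS

theorem mult2 {p : ℕ} (hp : p.Prime) {k : ℕ} (v : Fin k → ℤ) (q : Fin k → ℕ) (hq : ∀ i, 0 < q i)
    {r : ℕ} (d : Fin r → ℤ) {w : ℕ} (hw : 0 < w) (hbox : (∏ i, q i) * w ^ r < p) :
    ∃ m : ℤ, ¬ (p : ℤ) ∣ m ∧ (∀ i, ∃ e : ℤ, (p : ℤ) ∣ e - m * v i ∧ |e| * q i < p) ∧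
      ∀ i, ∃ e : ℤ, (p : ℤ) ∣ e - m * d i ∧ |e| * w < p := by
  classical
  obtain ⟨m, h1, h2, h3⟩ := exists_mult' hp v q hq (univ.image d) hw
    (lt_of_le_of_lt (Nat.mul_le_mul_left _ (Nat.pow_le_pow_right hw
      (card_image_le.trans (by simp)))) hbox)
  exact ⟨m, h1, h2, fun i => h3 _ (mem_image_of_mem _ (mem_univ i))⟩

/-- one step: a smaller copy -/
theorem shrinkX {n : ℕ} (hn : 1 ≤ n) {p : ℕ} (hp : p.Prime) {S : Finset ℤ} {l : ℕ}
    (hS : ∀ x ∈ S, 0 ≤ x ∧ x ≤ l)
    (hpl : n * l < p) {k : ℕ} (v : Fin k → ℤ) (L : Fin k → ℕ) {r : ℕ} (d : Fin r → ℤ) {W : ℕ}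
    (hW : 1 ≤ W)
    (hcov : ∀ a ∈ S, ∃ e : Fin r → ℤ, ∑ i, |e i| ≤ (W : ℤ) ∧ ∃ c : Fin k → ℤ,
      (∀ i, |c i| ≤ (L i : ℤ)) ∧ a = ∑ i, e i * d i + ∑ i, c i * v i)
    (hbox : (∏ i, 16 * n * k * (2 * L i + 1)) * (32 * n * W + 1) ^ r < p) :
    ∃ ψ : ℤ → ℤ, IsoN n S ψ ∧ ∀ a ∈ S, 16 * n * |ψ a| ≤ p := by
  classical
  obtain ⟨m, hm, hv, ht⟩ := mult2 hp v (fun i => 16 * n * k * (2 * L i + 1)) (by
    intro i
    have : 0 < k := lt_of_le_of_lt (Nat.zero_le _) i.2
    positivity) d (w := 32 * n * W + 1) (by omega) hbox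
  choose e he1 he2 using hv
  choose f hf1 hf2 using ht
  have hn0 : (0 : ℤ) < n := by exact_mod_cast hn
  have hW0 : (0 : ℤ) < W := by exact_mod_cast hW
  have hch : ∀ a : ℤ, ∃ y : ℤ, a ∈ S → (p : ℤ) ∣ y - m * a ∧ 16 * n * |y| ≤ p := by
    intro a
    by_cases ha : a ∈ S
    · obtain ⟨u, hu, c, hc, hac⟩ := hcov a ha
      refine ⟨∑ i, u i * f i + ∑ i, c i * e i, fun _ => ⟨?_, ?_⟩⟩
      · have h1 : ∑ i, u i * f i + ∑ i, c i * e i - m * a =
            ∑ i, u i * (f i - m * d i) + ∑ i, c i * (e i - m * v i) := by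
          rw [hac]
          simp only [mul_sub, sum_sub_distrib, mul_add, mul_sum]
          have e1 : ∑ i, m * (c i * v i) = ∑ i, c i * (m * v i) :=
            sum_congr rfl fun i _ => by ring
          have e2 : ∑ i, m * (u i * d i) = ∑ i, u i * (m * d i) :=
            sum_congr rfl fun i _ => by ring
          rw [e1, e2]
          ring
        rw [h1]
        exact dvd_add (dvd_sum fun i _ => Dvd.dvd.mul_left (hf1 i) _)
          (dvd_sum fun i _ => Dvd.dvd.mul_left (he1 i) _)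
      · have h2 : |∑ i, c i * e i| ≤ ∑ i, (L i : ℤ) * |e i| := by
          refine (abs_sum_le_sum_abs _ _).trans (sum_le_sum fun i _ => ?_)
          rw [abs_mul]
          exact mul_le_mul_of_nonneg_right (hc i) (abs_nonneg _)
        have h3 : 32 * (n : ℤ) * ∑ i, (L i : ℤ) * |e i| ≤ p := by
          rcases Nat.eq_zero_or_pos k with h0 | h0
          · subst h0
            simp
          · have h4 : ∀ i ∈ (univ : Finset (Fin k)), 32 * (n : ℤ) * (k : ℤ) * ((L i : ℤ) * |e i|) ≤ p := by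
              intro i _
              have h5 := he2 i
              push_cast at h5
              have h6 : 0 ≤ |e i| * (16 * n * (k : ℤ)) := by positivity
              nlinarith
            have h7 := sum_le_sum h4
            rw [← mul_sum, sum_const, card_univ, Fintype.card_fin, nsmul_eq_mul] at h7
            have h8 : (0 : ℤ) < k := by exact_mod_cast h0
            have h9 : (k : ℤ) * (32 * n * ∑ i, (L i : ℤ) * |e i|) ≤ k * p := by
              calc (k : ℤ) * (32 * n * ∑ i, (L i : ℤ) * |e i|)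
                  = 32 * n * (k : ℤ) * ∑ i, (L i : ℤ) * |e i| := by ring
                _ ≤ k * p := h7
            exact le_of_mul_le_mul_left h9 h8
        have h11 : 32 * (n : ℤ) * |∑ i, u i * f i| ≤ p := by
          have h12 : |∑ i, u i * f i| ≤ ∑ i, |u i| * |f i| := by
            refine (abs_sum_le_sum_abs _ _).trans (le_of_eq (sum_congr rfl fun i _ => ?_))
            rw [abs_mul]
          have h13 : ∀ i ∈ (univ : Finset (Fin r)), 32 * (n : ℤ) * (W : ℤ) * (|u i| * |f i|) ≤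
              |u i| * p := by
            intro i _
            have h14 := hf2 i
            push_cast at h14
            have h15 := abs_nonneg (u i)
            have h16 : |u i| * (|f i| * (32 * n * W + 1)) ≤ |u i| * p :=
              mul_le_mul_of_nonneg_left h14.le h15
            have h17 : 0 ≤ |u i| * |f i| := by positivity
            linarith
          have h18 := sum_le_sum h13
          rw [← mul_sum, ← sum_mul] at h18
          have h19 : (∑ i, |u i|) * (p : ℤ) ≤ W * p := mul_le_mul_of_nonneg_right hu (by positivity)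
          have h20 : (W : ℤ) * (32 * n * |∑ i, u i * f i|) ≤ W * p := by
            calc (W : ℤ) * (32 * n * |∑ i, u i * f i|) = 32 * n * W * |∑ i, u i * f i| := by ring
              _ ≤ 32 * n * W * ∑ i, |u i| * |f i| := mul_le_mul_of_nonneg_left h12 (by positivity)
              _ ≤ W * p := h18.trans h19
          exact le_of_mul_le_mul_left h20 hW0
        have h10 := abs_add_le (∑ i, u i * f i) (∑ i, c i * e i)
        have h12 : 32 * (n : ℤ) * |∑ i, u i * f i + ∑ i, c i * e i| ≤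
            32 * n * (|∑ i, u i * f i| + ∑ i, (L i : ℤ) * |e i|) := by
          apply mul_le_mul_of_nonneg_left _ (by positivity)
          exact h10.trans (add_le_add le_rfl h2)
        have h13 : 32 * (n : ℤ) * |∑ i, u i * f i + ∑ i, c i * e i| ≤ 2 * p := by
          refine h12.trans ?_
          rw [mul_add]
          linarith
        have h14 : 32 * (n : ℤ) * |∑ i, u i * f i + ∑ i, c i * e i| =
            2 * (16 * n * |∑ i, u i * f i + ∑ i, c i * e i|) := by ring
        rw [h14] at h13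
        linarith
    · exact ⟨0, fun h => absurd h ha⟩
  choose ψ hψ using hch
  have hpz : (0 : ℤ) < p := by exact_mod_cast hp.pos
  refine ⟨ψ, ?_, fun a ha => (hψ a ha).2⟩
  intro s t hs ht' hsn htn
  obtain ⟨⟨k1, hk1⟩, hb1⟩ := sum_mod (p := p) (m := m) (B := 16 * n) (N := p) hψ s hs (by positivity)
  obtain ⟨⟨k2, hk2⟩, hb2⟩ := sum_mod (p := p) (m := m) (B := 16 * n) (N := p) hψ t ht' (by positivity)
  rw [hsn] at hb1
  rw [htn] at hb2
  have c1 : 16 * |(s.map ψ).sum| ≤ p := by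
    have : (n : ℤ) * (16 * |(s.map ψ).sum|) ≤ n * p := by linarith
    exact le_of_mul_le_mul_left this hn0
  have c2 : 16 * |(t.map ψ).sum| ≤ p := by
    have : (n : ℤ) * (16 * |(t.map ψ).sum|) ≤ n * p := by linarith
    exact le_of_mul_le_mul_left this hn0
  obtain ⟨d1, d2⟩ := sum_bound (l := l) hS s hs
  obtain ⟨d3, d4⟩ := sum_bound (l := l) hS t ht'
  rw [hsn] at d2
  rw [htn] at d4
  have hpl' : (n : ℤ) * l < p := by exact_mod_cast hpl
  have e1 : (s.map ψ).sum - (t.map ψ).sum = m * (s.sum - t.sum) + p * (k1 - k2) := by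
    linear_combination hk1 - hk2
  constructor
  · intro h
    have h1 : (p : ℤ) ∣ m * (s.sum - t.sum) := by
      refine ⟨-(k1 - k2), ?_⟩
      linear_combination (-1 : ℤ) * e1 + h
    have h2 : (p : ℤ) ∣ s.sum - t.sum := by
      rcases (Nat.prime_iff_prime_int.1 hp).dvd_or_dvd h1 with h3 | h3
      · exact absurd h3 hm
      · exact h3
    have h3 : s.sum - t.sum = 0 := by
      apply Int.eq_zero_of_abs_lt_dvd h2
      rw [abs_lt]
      constructor <;> linarith
    linarith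
  · intro h
    have h1 : (p : ℤ) ∣ (s.map ψ).sum - (t.map ψ).sum := by
      refine ⟨k1 - k2, ?_⟩
      rw [e1, h]
      ring
    have h2 : (s.map ψ).sum - (t.map ψ).sum = 0 := by
      apply Int.eq_zero_of_abs_lt_dvd h1
      have x1 := abs_le.1 (le_refl |(s.map ψ).sum|)
      have x2 := abs_le.1 (le_refl |(t.map ψ).sum|)
      rw [abs_lt]
      constructor <;> omega
    linarith


theorem boxesX_le {n r k : ℕ} {K : ℝ} (hn : 2 ≤ n) (hK : 1 ≤ K) (hr : (r : ℝ) ≤ 230400000000 * K)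
    (hk : (k : ℝ) ≤ 30000 * Real.log (2 * K)) {m : ℝ} (hm : 0 < m) {L : Fin k → ℕ} {H : Type*}
    [AddGroup H] [Finite H]
    (hvol : ((∏ i, (2 * L i + 1) : ℕ) : ℝ) * (Nat.card H : ℝ) ≤ Real.exp (32000000 * K) * m) :
    (((∏ i, 16 * n * k * (2 * (2 * L i) + 1)) * (32 * n * 120001 + 1) ^ (r + 1) : ℕ) : ℝ) ≤
      (2 * n) ^ (10 ^ 17 * K) * m := by
  obtain ⟨κ, hκ⟩ : ∃ κ : ℝ, κ = Real.log (2 * K) := ⟨_, rfl⟩
  obtain ⟨lam, hlam⟩ : ∃ lam : ℝ, lam = Real.log (2 * n) := ⟨_, rfl⟩
  have hnR : (2 : ℝ) ≤ n := by exact_mod_cast hn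
  have hn0 : (0 : ℝ) < 2 * n := by linarith
  have hlam1 : 1 ≤ lam := by
    have h1 : Real.log 4 ≤ lam := by
      rw [hlam]
      exact Real.log_le_log (by norm_num) (by linarith)
    have h2 : Real.log 4 = 2 * Real.log 2 := by
      rw [show (4 : ℝ) = 2 ^ 2 by norm_num, Real.log_pow]
      norm_num
    have := Real.log_two_gt_d9
    linarith
  have hexpl : Real.exp lam = 2 * n := by rw [hlam, Real.exp_log hn0]
  have hK0 : (0 : ℝ) < 2 * K := by linarith
  have hκ0 : 0 ≤ κ := by rw [hκ]; exact Real.log_nonneg (by linarith)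
  have hκ1 : κ ≤ 2 * K := by
    rw [hκ]
    have := Real.log_le_sub_one_of_pos hK0
    linarith
  have hκ2 : κ ^ 2 ≤ 8 * K := by
    have h1 : Real.log (2 * K) = 2 * Real.log (Real.sqrt (2 * K)) := by
      rw [Real.log_sqrt hK0.le]; ring
    have h2 : Real.log (Real.sqrt (2 * K)) ≤ Real.sqrt (2 * K) := by
      have := Real.log_le_sub_one_of_pos (Real.sqrt_pos.2 hK0)
      linarith
    have h3 : κ ≤ 2 * Real.sqrt (2 * K) := by rw [hκ, h1]; linarith
    calc κ ^ 2 ≤ (2 * Real.sqrt (2 * K)) ^ 2 := pow_le_pow_left₀ hκ0 h3 2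
      _ = 4 * (Real.sqrt (2 * K)) ^ 2 := by ring
      _ = 8 * K := by rw [Real.sq_sqrt hK0.le]; ring
  rw [← hκ] at hk
  have hk0 : (0 : ℝ) ≤ k := Nat.cast_nonneg _
  have hk2 : (k : ℝ) ^ 2 ≤ 7200000000 * K := by
    calc (k : ℝ) ^ 2 ≤ (30000 * κ) ^ 2 := pow_le_pow_left₀ hk0 hk 2
      _ = 900000000 * κ ^ 2 := by ring
      _ ≤ 900000000 * (8 * K) := by linarith
      _ = 7200000000 * K := by ring
  have hKl : K ≤ K * lam := le_mul_of_one_le_right (by linarith) hlam1
  have hlK : lam ≤ K * lam := le_mul_of_one_le_left (by linarith) hK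
  have two_le : (2 : ℝ) ≤ Real.exp 1 := by
    have := Real.add_one_le_exp (1 : ℝ)
    linarith
  have hH : (1 : ℝ) ≤ Nat.card H := by exact_mod_cast (Nat.card_pos : 0 < Nat.card H)
  have e0 : ((∏ i, (2 * L i + 1) : ℕ) : ℝ) ≤ Real.exp (32000000 * K) * m :=
    (le_mul_of_one_le_right (Nat.cast_nonneg _) hH).trans hvol
  have e1 : ((∏ i, 16 * n * k * (2 * (2 * L i) + 1) : ℕ) : ℝ) ≤
      ((32 * n * k : ℕ) : ℝ) ^ k * ((∏ i, (2 * L i + 1) : ℕ) : ℝ) := by
    have h1 : ∏ i, 16 * n * k * (2 * (2 * L i) + 1) ≤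
        (32 * n * k) ^ k * ∏ i, (2 * L i + 1) := by
      calc ∏ i, 16 * n * k * (2 * (2 * L i) + 1) ≤ ∏ i, (32 * n * k) * (2 * L i + 1) := by
            refine prod_le_prod' fun i _ => ?_
            have h2 : 32 * n * k * (2 * L i + 1) = 16 * n * k * (2 * (2 * L i) + 2) := by ring
            rw [h2]
            exact Nat.mul_le_mul_left _ (by omega)
        _ = (32 * n * k) ^ k * ∏ i, (2 * L i + 1) := by
            rw [prod_mul_distrib, prod_const, card_univ, Fintype.card_fin]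
    exact_mod_cast h1
  have e2 : ((32 * n * k : ℕ) : ℝ) ^ k ≤ Real.exp (7300000000 * (K * lam)) := by
    have h1 : ((32 * n * k : ℕ) : ℝ) ≤ Real.exp (5 + lam + k) := by
      have h2 : (k : ℝ) ≤ Real.exp k := by
        have := Real.add_one_le_exp (k : ℝ)
        linarith
      have h3 : (32 : ℝ) ≤ Real.exp 5 := by
        calc (32 : ℝ) = 2 ^ 5 := by norm_num
          _ ≤ (Real.exp 1) ^ 5 := pow_le_pow_left₀ (by norm_num) two_le _
          _ = Real.exp 5 := by
              rw [← Real.exp_nat_mul]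
              norm_num
      have h4 : (n : ℝ) ≤ Real.exp lam := by
        rw [hexpl]
        linarith
      rw [Real.exp_add, Real.exp_add]
      push_cast
      gcongr
    calc ((32 * n * k : ℕ) : ℝ) ^ k ≤ (Real.exp (5 + lam + k)) ^ k :=
          pow_le_pow_left₀ (Nat.cast_nonneg _) h1 _
      _ = Real.exp (5 * k + k * lam + (k : ℝ) ^ 2) := by
          rw [← Real.exp_nat_mul]
          congr 1
          ring
      _ ≤ _ := by
          apply Real.exp_le_exp.2
          have h5 : (k : ℝ) ≤ 60000 * K := by linarith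
          have h6 : (k : ℝ) * lam ≤ 60000 * K * lam := mul_le_mul_of_nonneg_right h5 (by linarith)
          linarith
  have e3 : ((32 * n * 120001 + 1 : ℕ) : ℝ) ^ (r + 1) ≤ Real.exp (6000000000000 * (K * lam)) := by
    have h1 : ((32 * n * 120001 + 1 : ℕ) : ℝ) ≤ Real.exp (23 * lam) := by
      have h2 : ((32 * n * 120001 + 1 : ℕ) : ℝ) ≤ 2 ^ 22 * (2 * n) := by
        push_cast
        norm_num
        linarith
      have h3 : (2 : ℝ) ^ 22 ≤ Real.exp (22 * lam) := by
        calc (2 : ℝ) ^ 22 ≤ (Real.exp lam) ^ 22 := by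
              apply pow_le_pow_left₀ (by norm_num)
              rw [hexpl]
              linarith
          _ = Real.exp (22 * lam) := by
              rw [← Real.exp_nat_mul]
              norm_num
      calc ((32 * n * 120001 + 1 : ℕ) : ℝ) ≤ 2 ^ 22 * (2 * n) := h2
        _ ≤ Real.exp (22 * lam) * Real.exp lam := by
            rw [hexpl]
            gcongr
        _ = Real.exp (23 * lam) := by
            rw [← Real.exp_add]
            congr 1
            ring
    calc ((32 * n * 120001 + 1 : ℕ) : ℝ) ^ (r + 1) ≤ (Real.exp (23 * lam)) ^ (r + 1) :=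
          pow_le_pow_left₀ (Nat.cast_nonneg _) h1 _
      _ = Real.exp (23 * (r * lam) + 23 * lam) := by
          rw [← Real.exp_nat_mul]
          congr 1
          push_cast
          ring
      _ ≤ _ := by
          apply Real.exp_le_exp.2
          have h6 : (r : ℝ) * lam ≤ 230400000000 * K * lam := mul_le_mul_of_nonneg_right hr (by linarith)
          linarith
  have hp := Real.exp_pos
  have e4 : (((∏ i, 16 * n * k * (2 * (2 * L i) + 1)) * (32 * n * 120001 + 1) ^ (r + 1) : ℕ) : ℝ) =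
      ((∏ i, 16 * n * k * (2 * (2 * L i) + 1) : ℕ) : ℝ) *
        ((32 * n * 120001 + 1 : ℕ) : ℝ) ^ (r + 1) := by
    rw [Nat.cast_mul, Nat.cast_pow]
  rw [e4]
  calc ((∏ i, 16 * n * k * (2 * (2 * L i) + 1) : ℕ) : ℝ) * ((32 * n * 120001 + 1 : ℕ) : ℝ) ^ (r + 1)
      ≤ (Real.exp (7300000000 * (K * lam)) * (Real.exp (32000000 * K) * m)) *
        Real.exp (6000000000000 * (K * lam)) := by
        refine mul_le_mul (e1.trans (mul_le_mul e2 e0 (Nat.cast_nonneg _) (hp _).le)) e3
          (by positivity) (by positivity)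
    _ = Real.exp (7300000000 * (K * lam) + 32000000 * K + 6000000000000 * (K * lam)) * m := by
        rw [Real.exp_add, Real.exp_add]
        ring
    _ ≤ _ := by
        refine mul_le_mul_of_nonneg_right ?_ hm.le
        rw [Real.rpow_def_of_pos hn0, ← hlam]
        apply Real.exp_le_exp.2
        have h1 : lam * (10 ^ 17 * K) = 10 ^ 17 * (K * lam) := by ring
        rw [h1]
        norm_num
        linarith

/-- **A set of integers of small doubling is Freiman isomorphic, of order `n`, to a subset of a short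
interval.** -/
theorem compressX {K : ℝ} {n : ℕ} (hn : 2 ≤ n) {S : Finset ℤ} (hS : S.Nonempty)
    (hK : ((S + S).card : ℝ) ≤ K * S.card) :
    ∃ φ : ℤ → ℤ, IsoN n S φ ∧ ∀ a ∈ S, 0 ≤ φ a ∧ (φ a : ℝ) < (2 * n) ^ (10 ^ 17 * K) * S.card := by
  classical
  have hSpos : (0 : ℝ) < S.card := by exact_mod_cast hS.card_pos
  have hK1 : 1 ≤ K := one_le_K hS hK
  have hex : ∃ l : ℕ, ∃ φ : ℤ → ℤ, IsoN n S φ ∧ ∀ a ∈ S, 0 ≤ φ a ∧ φ a ≤ l := by
    set Rg : ℕ := ∑ x ∈ S, x.natAbs with hRg
    have hid : IsoN n S (fun x : ℤ => x) := by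
      intro s t _ _ _ _
      rw [Multiset.map_id', Multiset.map_id']
    refine ⟨2 * Rg, fun x => x + Rg, hid.add (Rg : ℤ), ?_⟩
    intro a ha
    have h1 : a.natAbs ≤ Rg := single_le_sum (f := fun x : ℤ => x.natAbs) (fun _ _ => Nat.zero_le _) ha
    simp only
    push_cast
    omega
  obtain ⟨φ, hφ, hb⟩ := Nat.find_spec hex
  set l := Nat.find hex with hl
  refine ⟨φ, hφ, fun a ha => ⟨(hb a ha).1, ?_⟩⟩
  have hal : (φ a : ℝ) ≤ l := by exact_mod_cast (hb a ha).2
  refine lt_of_le_of_lt hal ?_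
  have hn0 : (0 : ℝ) < 2 * n := by
    have : (2 : ℝ) ≤ n := by exact_mod_cast hn
    linarith
  have hlen : 0 < (2 * n) ^ (10 ^ 17 * K) * (S.card : ℝ) := mul_pos (Real.rpow_pos_of_pos hn0 _) hSpos
  rcases Nat.eq_zero_or_pos l with h0 | h0
  · rw [h0]
    simpa using hlen
  have hS' : (S.image φ).Nonempty := hS.image φ
  have hc' : (S.image φ).card = S.card := hφ.card_image hn
  have hK' : ((S.image φ + S.image φ).card : ℝ) ≤ K * (S.image φ).card := by
    rw [hc']
    refine le_trans ?_ hK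
    exact_mod_cast hφ.card_sum hn
  obtain ⟨r, k, d, v, L, H₀, a₀, hr, hk, hH, hvol, hcov⟩ := containS hS' hK'
  rw [hc'] at hvol
  have hH0 : ∀ h ∈ H₀, h = 0 := by
    intro h hh
    have h1 : Nat.card H₀ • (⟨h, hh⟩ : H₀) = 0 := card_nsmul_eq_zero'
    have h2 := congrArg Subtype.val h1
    rw [AddSubgroup.coe_nsmul, nsmul_eq_mul] at h2
    rcases mul_eq_zero.1 h2 with h3 | h3
    · exact absurd (by exact_mod_cast h3) (Nat.card_pos (α := H₀)).ne'
    · exact h3
  have hcov' : ∀ a ∈ S.image φ, ∃ e : Fin (r + 1) → ℤ, ∑ i, |e i| ≤ ((120001 : ℕ) : ℤ) ∧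
      ∃ c : Fin k → ℤ, (∀ i, |c i| ≤ ((2 * L i : ℕ) : ℤ)) ∧
        a = ∑ i, e i * (Fin.cons a₀ d : Fin (r + 1) → ℤ) i + ∑ i, c i * v i := by
    intro a ha
    obtain ⟨e, he, c, hc, h, hh, hxe⟩ := hcov a ha
    refine ⟨Fin.cons 1 e, ?_, c, fun i => ?_, ?_⟩
    · rw [Fin.sum_univ_succ]
      simp only [Fin.cons_zero, Fin.cons_succ, abs_one]
      push_cast
      linarith
    · have := hc i
      push_cast
      exact this
    · rw [Fin.sum_univ_succ]
      simp only [Fin.cons_zero, Fin.cons_succ]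
      rw [hxe, hH0 h hh]
      simp only [smul_eq_mul]
      ring
  have hbox := boxesX_le hn hK1 hr hk hSpos hvol
  refine lt_of_lt_of_le ?_ hbox
  by_contra hcon
  push Not at hcon
  have hcon' : (∏ i, 16 * n * k * (2 * (2 * L i) + 1)) * (32 * n * 120001 + 1) ^ (r + 1) ≤ l := by
    exact_mod_cast hcon
  have hnl : 0 < n * l := Nat.mul_pos (by omega) h0
  obtain ⟨p, hp, hp1, hp2⟩ := Nat.exists_prime_lt_and_le_two_mul (2 * (n * l)) (by omega)
  have hlnl : l ≤ n * l := Nat.le_mul_of_pos_left l (by omega)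
  obtain ⟨ψ, hψ, hψb⟩ := shrinkX (n := n) (by omega) hp (S := S.image φ) (l := l) (by
    intro x hx
    obtain ⟨y, hy, rfl⟩ := mem_image.1 hx
    exact hb y hy) (by omega) v (fun i => 2 * L i) (Fin.cons a₀ d) (W := 120001) (by norm_num)
    hcov' (lt_of_le_of_lt hcon' (by omega))
  have hnew : ∃ φ' : ℤ → ℤ, IsoN n S φ' ∧ ∀ a ∈ S, 0 ≤ φ' a ∧ φ' a ≤ ((l - 1 : ℕ) : ℤ) := by
    refine ⟨fun x => ψ (φ x) + ((l / 4 : ℕ) : ℤ), (hφ.comp hψ).add _, ?_⟩
    · intro a ha
      have h1 := hψb (φ a) (mem_image_of_mem _ ha)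
      have h3 : (n : ℤ) * (16 * |ψ (φ a)|) ≤ n * (4 * l) := by
        have h4 : (p : ℤ) ≤ 2 * (2 * (n * l)) := by exact_mod_cast hp2
        linarith
      have h5 : 16 * |ψ (φ a)| ≤ 4 * l := le_of_mul_le_mul_left h3 (by exact_mod_cast (by omega : 0 < n))
      have h2 := abs_le.1 (le_refl |ψ (φ a)|)
      simp only
      push_cast
      omega
  have := Nat.find_min' hex hnew
  omega

/-- **Sets of small doubling in torsion-free groups are isomorphic to dense subsets of intervals.** -/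
theorem compressGX {G : Type*} [AddCommGroup G] [DecidableEq G]
    (htf : ∀ (n : ℕ) (x : G), n ≠ 0 → n • x = 0 → x = 0) {K : ℝ} {n : ℕ} (hn : 2 ≤ n)
    {S : Finset G} (hS : S.Nonempty) (hK : ((S + S).card : ℝ) ≤ K * S.card) :
    ∃ φ : G → ℤ, IsoN n S φ ∧ ∀ a ∈ S, 0 ≤ φ a ∧ (φ a : ℝ) < (2 * n) ^ (10 ^ 17 * K) * S.card := by
  classical
  obtain ⟨θ, hadd, hinj⟩ := exists_hom htf (S ∪ n • S)
  have hcl : ∀ x ∈ S, x ∈ AddSubgroup.closure ((S ∪ n • S : Finset G) : Set G) := fun x hx =>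
    AddSubgroup.subset_closure (mem_coe.2 (mem_union_left _ hx))
  have h0 : θ 0 = 0 := by
    have := hadd 0 (AddSubgroup.zero_mem _) 0 (AddSubgroup.zero_mem _)
    rw [add_zero] at this
    omega
  have hsum : ∀ s : Multiset G, (∀ x ∈ s, x ∈ S) →
      s.sum ∈ AddSubgroup.closure ((S ∪ n • S : Finset G) : Set G) ∧ θ s.sum = (s.map θ).sum := by
    intro s
    induction s using Multiset.induction_on with
    | empty =>
      intro _
      exact ⟨AddSubgroup.zero_mem _, by simpa using h0⟩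
    | cons a s ih =>
      intro hs
      obtain ⟨h1, h2⟩ := ih fun x hx => hs x (Multiset.mem_cons_of_mem hx)
      have h3 := hcl a (hs a (Multiset.mem_cons_self a s))
      rw [Multiset.sum_cons, Multiset.map_cons, Multiset.sum_cons]
      exact ⟨AddSubgroup.add_mem _ h3 h1, by rw [hadd a h3 _ h1, h2]⟩
  have hθ : IsoN n S θ := by
    intro s t hs ht hsn htn
    rw [← (hsum s hs).2, ← (hsum t ht).2]
    constructor
    · intro h
      have h1 := sum_mem s hs
      have h2 := sum_mem t ht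
      rw [hsn] at h1
      rw [htn] at h2
      exact hinj _ (mem_union_right _ h1) _ (mem_union_right _ h2) h
    · intro h
      rw [h]
  have hc' : (S.image θ).card = S.card := hθ.card_image hn
  have hK' : ((S.image θ + S.image θ).card : ℝ) ≤ K * (S.image θ).card := by
    rw [hc']
    refine le_trans ?_ hK
    exact_mod_cast hθ.card_sum hn
  obtain ⟨φ, hφ, hb⟩ := compressX hn (hS.image θ) hK'
  refine ⟨fun x => φ (θ x), hθ.comp hφ, fun a ha => ?_⟩
  have := hb (θ a) (mem_image_of_mem _ ha)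
  rw [hc'] at this
  exact this


/-- **Rectification into a short interval** -/
theorem rectifyX {G : Type*} [AddCommGroup G] [DecidableEq G] {K : ℝ} {A : Finset G}
    (hA : A.Nonempty) (hK : ((A + A).card : ℝ) ≤ K * A.card) {n : ℕ} (hn : 2 ≤ n)
    (hG : ∀ H : AddSubgroup G, Finite H → H ≠ ⊥ →
      (2 * n) ^ (10 ^ 17 * K) * (A.card : ℝ) < Nat.card H) :
    ∃ (φ : G → ℤ) (ρ : ℕ) (B : Finset (Fin ρ →₀ ℤ)) (ψ : (Fin ρ →₀ ℤ) →+ G) (a₀ : G),
      IsoN n A φ ∧ (∀ a ∈ A, 0 ≤ φ a ∧ (φ a : ℝ) < (2 * n) ^ (10 ^ 17 * K) * A.card) ∧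
      B.card = A.card ∧ ((B + B).card : ℝ) ≤ K * B.card ∧
      ∀ a ∈ A, ∃ b ∈ B, a = a₀ + ψ b := by
  classical
  obtain ⟨ρ, g, ψ, a₀, hg, ha⟩ := lift hA hK hn hG
  have hc2 : (A.image g).card = A.card := hg.card_image hn
  have hK2 : ((A.image g + A.image g).card : ℝ) ≤ K * (A.image g).card := by
    rw [hc2]
    refine le_trans ?_ hK
    exact_mod_cast hg.card_sum hn
  obtain ⟨φ, hφ, hb⟩ := compressGX tf_finsupp hn (hA.image g) hK2
  rw [hc2] at hb
  exact ⟨fun x => φ (g x), ρ, A.image g, ψ, a₀, hg.comp hφ,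
    fun a h => hb (g a) (mem_image_of_mem _ h), hc2, hK2,
    fun a h => ⟨g a, mem_image_of_mem _ h, ha a h⟩⟩

end Pool.Agent.H602.EX
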