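import Pool.Agent.H602.EX.Main

/-!
# Lifting to torsion-free groups
-/

set_option autoImplicit false

open Finset
open scoped Pointwise

namespace Pool.Agent.H602.EX

open Pool.Agent.H602.MD Pool.Agent.H602.GM

/-- **Lifting to torsion-free groups** -/
theorem lift {G : Type*} [AddCommGroup G] [DecidableEq G] {K : ℝ} {A : Finset G}
    (hA : A.Nonempty) (hK : ((A + A).card : ℝ) ≤ K * A.card) {n : ℕ} (hn : 2 ≤ n)
    (hG : ∀ H : AddSubgroup G, Finite H → H ≠ ⊥ →
      (2 * n) ^ (10 ^ 17 * K) * (A.card : ℝ) < Nat.card H) :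
    ∃ (ρ : ℕ) (g : G → (Fin ρ →₀ ℤ)) (ψ : (Fin ρ →₀ ℤ) →+ G) (a₀ : G), IsoN n A g ∧
      ∀ a ∈ A, a = a₀ + ψ (g a) := by
  classical
  have hK1 : 1 ≤ K := one_le_K hA hK
  obtain ⟨ρ, T, _, _, g, Ψ, a₀, hg, hΨ, hsize⟩ := universal hA hK hn
  have hT : ∀ t : T, Ψ ((0 : Fin ρ →₀ ℤ), t) = 0 := by
    intro t
    by_contra hne
    let θ : T →+ G := Ψ.comp (AddMonoidHom.inr (Fin ρ →₀ ℤ) T)
    have hfin : Finite θ.range := Finite.of_surjective _ θ.rangeRestrict_surjective
    have h1 : θ.range ≠ ⊥ := by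
      intro h
      have h2 : θ t ∈ θ.range := ⟨t, rfl⟩
      rw [h, AddSubgroup.mem_bot] at h2
      exact hne h2
    have h2 := hG θ.range hfin h1
    have h3 : Nat.card θ.range ≤ Nat.card T :=
      Nat.card_le_card_of_surjective _ θ.rangeRestrict_surjective
    have h4 : (1 : ℝ) ≤ ((n + 1) • A.image (fun x => (g x).1) -
        n • A.image (fun x => (g x).1)).card := by
      exact_mod_cast (hA.image (fun x => (g x).1)).card_pos.trans_le
        (card_le_iter (hA.image (fun x => (g x).1)) n)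
    have h5 : (Nat.card θ.range : ℝ) ≤ Nat.card T := by exact_mod_cast h3
    have h6 : (Nat.card T : ℝ) ≤ ((n + 1) • A.image (fun x => (g x).1) -
        n • A.image (fun x => (g x).1)).card * Nat.card T :=
      le_mul_of_one_le_left (Nat.cast_nonneg _) h4
    have h7 : (2 * n : ℝ) ^ (6 * 10 ^ 16 * K) ≤ (2 * n) ^ (10 ^ 17 * K) := by
      have hnR : (2 : ℝ) ≤ n := by exact_mod_cast hn
      apply Real.rpow_le_rpow_of_exponent_le (by linarith)
      norm_num
      linarith
    have h8 := mul_le_mul_of_nonneg_right h7 (Nat.cast_nonneg (α := ℝ) A.card)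
    linarith
  have hsplit : ∀ z : (Fin ρ →₀ ℤ) × T, Ψ z = Ψ (z.1, 0) := by
    intro z
    have h1 : z = (z.1, 0) + ((0 : Fin ρ →₀ ℤ), z.2) := by
      refine Prod.ext ?_ ?_
      · rw [Prod.fst_add, add_zero]
      · rw [Prod.snd_add, zero_add]
    rw [h1, map_add, hT, add_zero, ← h1]
  have hmap : ∀ s : Multiset G, (s.map (fun x => (g x).1)).sum = (s.map g).sum.1 := by
    intro s
    induction s using Multiset.induction_on with
    | empty => simp
    | cons a s ih =>
      simp only [Multiset.map_cons, Multiset.sum_cons]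
      rw [ih]
      rfl
  have hsum : ∀ s : Multiset G, (∀ x ∈ s, x ∈ A) → Ψ (s.map g).sum = s.sum - s.card • a₀ := by
    intro s
    induction s using Multiset.induction_on with
    | empty => intro _; simp
    | cons a s ih =>
      intro hs
      rw [Multiset.map_cons, Multiset.sum_cons, map_add, Multiset.sum_cons, Multiset.card_cons,
        hΨ a (hs a (Multiset.mem_cons_self a s)),
        ih fun x hx => hs x (Multiset.mem_cons_of_mem hx), succ_nsmul]
      abel
  refine ⟨ρ, fun x => (g x).1, Ψ.comp (AddMonoidHom.inl (Fin ρ →₀ ℤ) T), a₀, ?_, ?_⟩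
  · intro s t hs ht hsn htn
    rw [hmap, hmap]
    constructor
    · intro h
      have h1 := hsum s hs
      have h2 := hsum t ht
      rw [hsn, hsplit, h, ← hsplit, h2, htn] at h1
      exact (sub_left_inj.1 h1).symm
    · intro h
      rw [(hg s t hs ht hsn htn).2 h]
  · intro a ha
    change a = a₀ + Ψ ((g a).1, 0)
    rw [← hsplit, hΨ a ha, add_sub_cancel]

/-- **Rectification** -/
theorem rectify' {G : Type*} [AddCommGroup G] [DecidableEq G] {K : ℝ} {A : Finset G}
    (hA : A.Nonempty) (hK : ((A + A).card : ℝ) ≤ K * A.card) {n : ℕ} (hn : 2 ≤ n)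
    (hG : ∀ H : AddSubgroup G, Finite H → H ≠ ⊥ →
      (2 * n) ^ (10 ^ 17 * K) * (A.card : ℝ) < Nat.card H) :
    ∃ (φ : G → ℤ) (ρ : ℕ) (B : Finset (Fin ρ →₀ ℤ)) (ψ : (Fin ρ →₀ ℤ) →+ G) (a₀ : G),
      IsoN n A φ ∧ B.card = A.card ∧ ((B + B).card : ℝ) ≤ K * B.card ∧
      ∀ a ∈ A, ∃ b ∈ B, a = a₀ + ψ b := by
  classical
  obtain ⟨ρ, g, ψ, a₀, hg, ha⟩ := lift hA hK hn hG
  have hc2 : (A.image g).card = A.card := hg.card_image hn
  have hK2 : ((A.image g + A.image g).card : ℝ) ≤ K * (A.image g).card := by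
    rw [hc2]
    refine le_trans ?_ hK
    exact_mod_cast hg.card_sum hn
  obtain ⟨φ, hφ, -⟩ := compressGN tf_finsupp hn (hA.image g) hK2
  exact ⟨fun x => φ (g x), ρ, A.image g, ψ, a₀, hg.comp hφ, hc2, hK2,
    fun a h => ⟨g a, mem_image_of_mem _ h, ha a h⟩⟩

end Pool.Agent.H602.EX
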