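import Pool.Agent.H602.EX.Interval

/-!
# The dependence of models on the order
-/

set_option autoImplicit false

open Finset
open scoped Pointwise

namespace Pool.Agent.H602.EX

open Pool.Agent.H602.MD

universe v

/-- the simplex -/
def eps (d : ℕ) : Option (Fin d) → (Fin d → ℤ)
  | none => 0
  | some i => Pi.single i 1

theorem eps_sum {d : ℕ} (s : Multiset (Option (Fin d))) (i : Fin d) :
    (s.map (eps d)).sum i = (s.count (some i) : ℤ) := by
  classical
  induction s using Multiset.induction_on with
  | empty => simp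
  | cons a s ih =>
    rw [Multiset.map_cons, Multiset.sum_cons, Pi.add_apply, ih, Multiset.count_cons]
    cases a with
    | none =>
      simp [eps]
    | some j =>
      by_cases h : j = i
      · subst h
        simp [eps]
        ring
      · have h1 : (some i : Option (Fin d)) ≠ some j := fun h2 => h (Option.some.inj h2).symm
        have h2 : i ≠ j := fun h3 => h h3.symm
        simp [eps, h1, h2]

theorem eps_inj (d : ℕ) : Function.Injective (eps d) := by
  intro a b h
  cases a with
  | none =>
    cases b with
    | none => rfl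
    | some j =>
      have := congrFun h j
      simp [eps] at this
  | some i =>
    cases b with
    | none =>
      have := congrFun h i
      simp [eps] at this
    | some j =>
      have h1 := congrFun h i
      by_cases hij : i = j
      · rw [hij]
      · simp [eps, hij] at h1

/-- the simplex as a finite set -/
def simplex (d : ℕ) : Finset (Fin d → ℤ) := univ.image (eps d)

theorem card_simplex (d : ℕ) : (simplex d).card = d + 1 := by
  rw [simplex, card_image_of_injective _ (eps_inj d), card_univ, Fintype.card_option,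
    Fintype.card_fin]

theorem card_add_self_le {G : Type*} [AddCommGroup G] [DecidableEq G] (S : Finset G) :
    (S + S).card ≤ (S.card + 1).choose 2 := by
  rw [← card_sym2]
  refine (card_le_card ?_).trans (card_image_le (s := S.sym2)
    (f := Sym2.lift ⟨fun a b => a + b, fun a b => add_comm a b⟩))
  intro z hz
  obtain ⟨a, ha, b, hb, rfl⟩ := mem_add.1 hz
  exact mem_image.2 ⟨s(a, b), mk_mem_sym2_iff.2 ⟨ha, hb⟩, rfl⟩

theorem lowN (d n : ℕ) (H : Type v) [AddCommGroup H] [Finite H] (φ : (Fin d → ℤ) → H)
    (h : IsoN n (simplex d) φ) : (n + d).choose n ≤ Nat.card H := by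
  classical
  have hmem : ∀ m : Sym (Option (Fin d)) n, ∀ x ∈ (m : Multiset (Option (Fin d))).map (eps d),
      x ∈ simplex d := by
    intro m x hx
    obtain ⟨y, -, rfl⟩ := Multiset.mem_map.1 hx
    exact mem_image_of_mem _ (mem_univ _)
  have hcard : ∀ m : Sym (Option (Fin d)) n,
      ((m : Multiset (Option (Fin d))).map (eps d)).card = n := by
    intro m
    rw [Multiset.card_map]
    exact m.2
  have hinj : Function.Injective (fun m : Sym (Option (Fin d)) n =>
      (((m : Multiset (Option (Fin d))).map (eps d)).map φ).sum) := by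
    intro m m' hm
    have h1 := (h _ _ (hmem m) (hmem m') (hcard m) (hcard m')).1 hm
    apply Subtype.ext
    have hsome : ∀ i : Fin d, (m : Multiset (Option (Fin d))).count (some i) =
        (m' : Multiset (Option (Fin d))).count (some i) := by
      intro i
      have h2 := congrFun h1 i
      rw [eps_sum, eps_sum] at h2
      exact_mod_cast h2
    have htot : ∀ m : Sym (Option (Fin d)) n, (m : Multiset (Option (Fin d))).count none +
        ∑ i, (m : Multiset (Option (Fin d))).count (some i) = n := by
      intro m
      have h3 := Multiset.sum_count_eq_card (s := univ) (m := (m : Multiset (Option (Fin d))))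
        (fun a _ => mem_univ a)
      rw [Fintype.sum_option] at h3
      rw [h3]
      exact m.2
    ext a
    cases a with
    | none =>
      have h4 := htot m
      have h5 := htot m'
      rw [sum_congr rfl fun i _ => hsome i] at h4
      change (m : Multiset (Option (Fin d))).count none = (m' : Multiset (Option (Fin d))).count none
      omega
    | some i => exact hsome i
  have hle := Nat.card_le_card_of_injective _ hinj
  rw [Nat.card_eq_fintype_card, Sym.card_sym_eq_choose, Fintype.card_option, Fintype.card_fin,
    show d + 1 + n - 1 = n + d by omega] at hle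
  exact hle

/-- cyclic models whose order depends polynomially on the order of the isomorphism -/
theorem cyclicX {G : Type*} [AddCommGroup G] [DecidableEq G]
    (htf : ∀ (n : ℕ) (x : G), n ≠ 0 → n • x = 0 → x = 0) {K : ℝ} {n : ℕ} (hn : 2 ≤ n)
    {S : Finset G} (hS : S.Nonempty) (hK : ((S + S).card : ℝ) ≤ K * S.card) :
    ∃ (m : ℕ) (φ : G → ZMod m), 0 < m ∧ (m : ℝ) ≤ (2 * n) ^ (2 * 10 ^ 17 * K) * S.card ∧
      IsoN n S φ := by
  classical
  have hK1 : 1 ≤ K := one_le_K hS hK
  have hSpos : (1 : ℝ) ≤ S.card := by exact_mod_cast hS.card_pos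
  have hnR : (2 : ℝ) ≤ n := by exact_mod_cast hn
  obtain ⟨φ, hφ, hb⟩ := compressGX htf hn hS hK
  obtain ⟨X, hX⟩ : ∃ X : ℝ, X = (2 * n) ^ (10 ^ 17 * K) := ⟨_, rfl⟩
  rw [← hX] at hb
  have hX1 : 2 * n * 4 ≤ X := by
    have h1 : (2 * n : ℝ) ^ (3 : ℕ) ≤ X := by
      rw [hX, ← Real.rpow_natCast]
      apply Real.rpow_le_rpow_of_exponent_le (by linarith)
      norm_num
      linarith
    have h2 : 2 * (n : ℝ) * 4 ≤ (2 * n) ^ (3 : ℕ) := by
      have : (16 : ℝ) ≤ (2 * n) ^ 2 := by nlinarith
      nlinarith
    linarith
  obtain ⟨l, hl⟩ : ∃ l : ℕ, l = ⌈X * S.card⌉₊ := ⟨_, rfl⟩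
  have hle : ∀ x ∈ S.image φ, 0 ≤ x ∧ x ≤ (l : ℤ) := by
    intro x hx
    obtain ⟨y, hy, rfl⟩ := mem_image.1 hx
    obtain ⟨h1, h2⟩ := hb y hy
    refine ⟨h1, ?_⟩
    have h3 := Nat.le_ceil (X * S.card)
    rw [← hl] at h3
    exact_mod_cast h2.le.trans h3
  refine ⟨n * l + 1, fun x => ((φ x : ℤ) : ZMod (n * l + 1)), by omega, ?_, ?_⟩
  · have h1 := (Nat.ceil_lt_add_one (a := X * S.card) (mul_nonneg (by linarith) (by linarith))).le
    rw [← hl] at h1
    have h2 : X * S.card + 1 ≤ 2 * (X * S.card) := by
      have : 1 ≤ X * S.card := one_le_mul_of_one_le_of_one_le (by linarith) hSpos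
      linarith
    have h3 : (2 * n : ℝ) ^ (2 * 10 ^ 17 * K) = X * X := by
      rw [hX, ← Real.rpow_add (by linarith)]
      congr 1
      ring
    rw [h3]
    push_cast
    have h4 : (n : ℝ) * l ≤ n * (2 * (X * S.card)) :=
      mul_le_mul_of_nonneg_left (h1.trans h2) (by linarith)
    have h5 : 1 ≤ X * S.card := one_le_mul_of_one_le_of_one_le (by linarith) hSpos
    have h6 : 2 * n * 4 * (X * S.card) ≤ X * (X * S.card) :=
      mul_le_mul_of_nonneg_right hX1 (by linarith)
    nlinarith
  · refine hφ.comp (isoN_cast ?_)
    intro a ha ha0 hd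
    have h1 := diff_bound hle a ha
    have h2 : a = 0 := by
      apply Int.eq_zero_of_abs_lt_dvd hd
      push_cast at h1 ⊢
      linarith
    exact ha0 h2

end Pool.Agent.H602.EX
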