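import Pool.Agent.H602.MD.Model

/-!
# Models whose order is close to the size of the iterated difference set
-/

set_option autoImplicit false

open Finset
open scoped Pointwise

namespace Pool.Agent.H602.EX

open Pool.Agent.H602.MD

/-- isomorphisms of smaller order -/
theorem _root_.Pool.Agent.H602.MD.IsoN.mono {G H : Type*} [AddCommGroup G] [AddCommGroup H] {n N : ℕ}
    {S : Finset G} {φ : G → H} (h : IsoN N S φ) (hnN : n ≤ N) (hS : S.Nonempty) : IsoN n S φ := by
  obtain ⟨a, ha⟩ := hS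
  intro s t hs ht hsn htn
  have h1 := h (s + Multiset.replicate (N - n) a) (t + Multiset.replicate (N - n) a)
    (by
      intro x hx
      rcases Multiset.mem_add.1 hx with hx | hx
      · exact hs x hx
      · rw [Multiset.eq_of_mem_replicate hx]
        exact ha)
    (by
      intro x hx
      rcases Multiset.mem_add.1 hx with hx | hx
      · exact ht x hx
      · rw [Multiset.eq_of_mem_replicate hx]
        exact ha)
    (by rw [Multiset.card_add, Multiset.card_replicate, hsn]; omega)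
    (by rw [Multiset.card_add, Multiset.card_replicate, htn]; omega)
  simp only [Multiset.map_add, Multiset.sum_add, add_left_inj] at h1
  exact h1

/-- the elements of an iterated sumset of an image -/
theorem mem_nsmul_image {G H : Type*} [AddCommGroup G] [AddCommGroup H] [DecidableEq H]
    {S : Finset G} {φ : G → H} (k : ℕ) : ∀ z ∈ k • (S.image φ), ∃ s : Multiset G,
      (∀ x ∈ s, x ∈ S) ∧ s.card = k ∧ (s.map φ).sum = z := by
  induction k with
  | zero =>
    intro z hz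
    rw [zero_nsmul] at hz
    have : z = 0 := by simpa using hz
    exact ⟨0, by simp, rfl, by simp [this]⟩
  | succ k ih =>
    intro z hz
    rw [succ_nsmul'] at hz
    obtain ⟨b, hb, c, hc, rfl⟩ := mem_add.1 hz
    obtain ⟨a, ha, rfl⟩ := mem_image.1 hb
    obtain ⟨s, hs, hsk, hsc⟩ := ih c hc
    refine ⟨a ::ₘ s, ?_, by rw [Multiset.card_cons, hsk], ?_⟩
    · intro x hx
      rcases Multiset.mem_cons.1 hx with rfl | hx
      · exact ha
      · exact hs x hx
    · rw [Multiset.map_cons, Multiset.sum_cons, hsc]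

theorem card_iter_le {G H : Type*} [AddCommGroup G] [AddCommGroup H] [DecidableEq G] [DecidableEq H]
    {S : Finset G} {φ : G → H} {n : ℕ} (h : IsoN (2 * n + 1) S φ) :
    ((n + 1) • S.image φ - n • S.image φ).card ≤ ((n + 1) • S - n • S).card := by
  classical
  have hch : ∀ z : H, ∃ p : Multiset G × Multiset G, z ∈ (n + 1) • S.image φ - n • S.image φ →
      (∀ x ∈ p.1, x ∈ S) ∧ p.1.card = n + 1 ∧ (∀ x ∈ p.2, x ∈ S) ∧ p.2.card = n ∧
        (p.1.map φ).sum - (p.2.map φ).sum = z := by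
    intro z
    by_cases hz : z ∈ (n + 1) • S.image φ - n • S.image φ
    · obtain ⟨b, hb, c, hc, rfl⟩ := mem_sub.1 hz
      obtain ⟨s, hs, hsk, hsb⟩ := mem_nsmul_image _ b hb
      obtain ⟨t, ht, htk, htc⟩ := mem_nsmul_image _ c hc
      exact ⟨(s, t), fun _ => ⟨hs, hsk, ht, htk, by rw [hsb, htc]⟩⟩
    · exact ⟨(0, 0), fun h => absurd h hz⟩
  choose p hp using hch
  refine card_le_card_of_injOn (fun z => (p z).1.sum - (p z).2.sum) ?_ ?_
  · intro z hz
    obtain ⟨h1, h2, h3, h4, h5⟩ := hp z hz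
    have h6 := sum_mem (p z).1 h1
    have h7 := sum_mem (p z).2 h3
    rw [h2] at h6
    rw [h4] at h7
    exact mem_coe.2 (sub_mem_sub h6 h7)
  · intro z hz z' hz' he
    obtain ⟨h1, h2, h3, h4, h5⟩ := hp z hz
    obtain ⟨h1', h2', h3', h4', h5'⟩ := hp z' hz'
    simp only at he
    have h6 := (h ((p z).1 + (p z').2) ((p z').1 + (p z).2)
      (by
        intro x hx
        rcases Multiset.mem_add.1 hx with hx | hx
        · exact h1 x hx
        · exact h3' x hx)
      (by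
        intro x hx
        rcases Multiset.mem_add.1 hx with hx | hx
        · exact h1' x hx
        · exact h3 x hx)
      (by rw [Multiset.card_add, h2, h4']; omega)
      (by rw [Multiset.card_add, h2', h4]; omega)).2 (by
        rw [Multiset.sum_add, Multiset.sum_add]
        exact sub_eq_sub_iff_add_eq_add.1 he)
    rw [Multiset.map_add, Multiset.map_add, Multiset.sum_add, Multiset.sum_add] at h6
    rw [← h5, ← h5']
    exact sub_eq_sub_iff_add_eq_add.2 h6

theorem card_le_iter {G : Type*} [AddCommGroup G] [DecidableEq G] {S : Finset G} (hS : S.Nonempty)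
    (n : ℕ) : S.card ≤ ((n + 1) • S - n • S).card := by
  obtain ⟨a, ha⟩ := hS
  refine card_le_card_of_injOn (fun x => (x + n • a) - n • a) ?_ ?_
  · intro x hx
    refine mem_coe.2 (sub_mem_sub ?_ (nsmul_mem_nsmul ha))
    rw [succ_nsmul']
    exact add_mem_add (mem_coe.1 hx) (nsmul_mem_nsmul ha)
  · intro x _ y _ h
    simpa using h

theorem iter_le_succ {G : Type*} [AddCommGroup G] [DecidableEq G] {S : Finset G} (hS : S.Nonempty)
    (n : ℕ) : (n • S - n • S).card ≤ ((n + 1) • S - n • S).card := by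
  obtain ⟨a, ha⟩ := hS
  refine card_le_card_of_injOn (fun x => a + x) ?_ ?_
  · intro x hx
    obtain ⟨b, hb, c, hc, rfl⟩ := mem_sub.1 (mem_coe.1 hx)
    have e : a + (b - c) = (a + b) - c := by abel
    simp only
    rw [e]
    refine mem_coe.2 (sub_mem_sub ?_ hc)
    rw [succ_nsmul']
    exact add_mem_add ha hb
  · intro x _ y _ h
    exact add_left_cancel h

/-- large sets -/
theorem largeD {S : Finset ℤ} (hS : S.Nonempty) {D : ℝ}
    {n J k : ℕ} (hDS : (((n + 1) • S - n • S).card : ℝ) ≤ D) (hSD : (S.card : ℝ) ≤ D)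
    (hn : 1 ≤ n) (hJ : 1 ≤ J) (hSX : ∀ x ∈ S, 0 ≤ x ∧ x ≤ (J * S.card : ℕ))
    (hk : 2 * J < 2 ^ k) (hbig : (n * J) ^ k ≤ S.card) {w : ℝ} (hw : (k : ℝ) * Real.log (n * J) ≤ w) :
    ∃ m : ℕ, 0 < m ∧ (m : ℝ) ≤ (8 * (2 * w + 1) * (1 + Real.log (n * J)) + 2) * D ∧
      ∀ a ∈ n • S - n • S, a ≠ 0 → ¬ (m : ℤ) ∣ a := by
  classical
  have hSpos : 0 < S.card := hS.card_pos
  have hSposR : (0 : ℝ) < S.card := by exact_mod_cast hSpos
  have hD0 : (0 : ℝ) < D := lt_of_lt_of_le hSposR hSD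
  set Y := n * J with hY
  have hY1 : 1 ≤ Y := Nat.mul_pos hn hJ
  obtain ⟨h, h0, hle, hgood⟩ := exists_h (S := S) (X := J * S.card) (Y := Y) (k := k) hS hSX hY1
    (hbig.trans (Nat.le_mul_of_pos_left _ hJ))
    (by rw [← mul_assoc]; exact Nat.mul_lt_mul_of_pos_right hk hSpos)
  set ω := h.primeFactors.card with hω
  have hYR : (1 : ℝ) ≤ Y := by exact_mod_cast hY1
  have hYcast : ((n : ℝ) * J) = Y := by rw [hY]; push_cast; rfl
  rw [hYcast] at hw ⊢
  have hlogY : 0 ≤ Real.log Y := Real.log_nonneg hYR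
  have hωw : (ω : ℝ) ≤ 2 * w := by
    have h1 := (two_pow_primeFactors h0).trans hle
    have h2 : ((2 : ℝ) ^ ω) ≤ (Y : ℝ) ^ k := by exact_mod_cast h1
    have h3 := Real.log_le_log (by positivity) h2
    rw [Real.log_pow, Real.log_pow] at h3
    have h4 := Real.log_two_gt_d9
    have h5 : (0 : ℝ) ≤ ω := Nat.cast_nonneg _
    nlinarith
  set R : ℝ := 2 * D * (1 + Real.log Y) with hR
  have hR1 : 2 * (S.card : ℝ) ≤ R := by
    rw [hR]
    have h2 : 0 ≤ D * Real.log Y := mul_nonneg hD0.le hlogY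
    nlinarith
  have hR0 : 0 < R := by linarith
  set q := ⌊((ω + 1 : ℝ) * R) / h⌋₊ + 1 with hq
  have hhR : (0 : ℝ) < h := by exact_mod_cast h0
  have hq1 : (ω + 1 : ℝ) * R < h * q := by
    have := Nat.lt_floor_add_one (((ω + 1 : ℝ) * R) / h)
    rw [div_lt_iff₀ hhR] at this
    rw [hq]
    push_cast
    linarith
  have hq2 : (h * q : ℝ) ≤ (ω + 1 : ℝ) * R + h := by
    have h1 := Nat.floor_le (a := ((ω + 1 : ℝ) * R) / h) (by positivity)
    rw [le_div_iff₀ hhR] at h1
    rw [hq]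
    push_cast
    linarith
  set M := h * q with hM
  have hMR : (M : ℝ) = h * q := by rw [hM]; push_cast; rfl
  have hω0 : (0 : ℝ) ≤ ω := Nat.cast_nonneg _
  have hMS : S.card ≤ M := by
    have : (S.card : ℝ) ≤ M := by
      rw [hMR]
      have : R ≤ (ω + 1 : ℝ) * R := by nlinarith
      linarith
    exact_mod_cast this
  have hM0 : 0 < M := lt_of_lt_of_le hSpos hMS
  have hD : ∀ a ∈ n • S - n • S, |a| ≤ (Y * M : ℕ) := by
    intro a ha
    refine (diff_bound hSX a ha).trans ?_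
    have : n * (J * S.card) ≤ Y * M := by
      rw [hY, ← mul_assoc]
      exact Nat.mul_le_mul_left _ hMS
    exact_mod_cast this
  have hcb := count_bad (h := h) hD hM0
  -- the sum
  have hsum : ((∑ j ∈ (Icc 1 Y).filter (fun j : ℕ => j.Coprime h),
      ((n • S - n • S).filter (fun a : ℤ => (j : ℤ) ∣ a)).card : ℕ) : ℝ) ≤ R := by
    push_cast
    have h1 : ∀ j ∈ (Icc 1 Y).filter (fun j : ℕ => j.Coprime h),
        (((n • S - n • S).filter (fun a : ℤ => (j : ℤ) ∣ a)).card : ℝ) ≤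
          2 * D * (j : ℝ)⁻¹ := by
      intro j hj
      rw [mem_filter, mem_Icc] at hj
      obtain ⟨⟨hj1, hj2⟩, hj3⟩ := hj
      have h2 := hgood j hj1 hj2 hj3
      have h3 := fibre (S := S) (n := n) (j := j)
      have h5 : (((n • S - n • S).filter (fun a : ℤ => (j : ℤ) ∣ a)).card : ℝ) * rc S j ≤
          D := by
        have : (((n • S - n • S).filter (fun a : ℤ => (j : ℤ) ∣ a)).card : ℝ) * rc S j ≤
            (((n + 1) • S - n • S).card : ℝ) := by exact_mod_cast h3
        exact this.trans hDS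
      have hjR : (0 : ℝ) < j := by exact_mod_cast hj1
      rw [← div_eq_mul_inv, le_div_iff₀ hjR]
      have h6 : (j : ℝ) ≤ 2 * rc S j := by exact_mod_cast h2.le
      have h7 : (0 : ℝ) ≤ ((n • S - n • S).filter (fun a : ℤ => (j : ℤ) ∣ a)).card :=
        Nat.cast_nonneg _
      calc (((n • S - n • S).filter (fun a : ℤ => (j : ℤ) ∣ a)).card : ℝ) * j
          ≤ (((n • S - n • S).filter (fun a : ℤ => (j : ℤ) ∣ a)).card : ℝ) * (2 * rc S j) :=
            mul_le_mul_of_nonneg_left h6 h7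
        _ = 2 * ((((n • S - n • S).filter (fun a : ℤ => (j : ℤ) ∣ a)).card : ℝ) * rc S j) := by ring
        _ ≤ 2 * D := by linarith
    refine (sum_le_sum h1).trans ?_
    have h2 : ∑ j ∈ (Icc 1 Y).filter (fun j : ℕ => j.Coprime h), 2 * D * (j : ℝ)⁻¹
        ≤ ∑ j ∈ Icc 1 Y, 2 * D * (j : ℝ)⁻¹ :=
      sum_le_sum_of_subset_of_nonneg (filter_subset _ _) fun j _ _ => by positivity
    refine h2.trans ?_
    rw [← mul_sum, hR]
    apply mul_le_mul_of_nonneg_left _ (by positivity)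
    have h3 := harmonic_le_one_add_log Y
    rw [harmonic_eq_sum_Icc] at h3
    push_cast at h3
    exact h3
  -- compare
  have hcount : (q * Nat.totient h : ℕ) = ((Ico M (2 * M)).filter (fun m => m.Coprime h)).card := by
    rw [← card_coprime h M q, two_mul]
  have hlt : ((Ico M (2 * M)).filter (fun m : ℕ => m.Coprime h ∧
      ∃ a ∈ n • S - n • S, a ≠ 0 ∧ (m : ℤ) ∣ a)).card <
      ((Ico M (2 * M)).filter (fun m => m.Coprime h)).card := by
    rw [← hcount]
    have h1 : (((Ico M (2 * M)).filter (fun m : ℕ => m.Coprime h ∧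
      ∃ a ∈ n • S - n • S, a ≠ 0 ∧ (m : ℤ) ∣ a)).card : ℝ) ≤ R :=
      le_trans (by exact_mod_cast hcb) hsum
    have h2 : R < ((q * Nat.totient h : ℕ) : ℝ) := by
      push_cast
      have h3 := totient_ge (h := h)
      have h4 : (h * q : ℝ) ≤ (Nat.totient h * (ω + 1)) * q :=
        mul_le_mul_of_nonneg_right h3 (Nat.cast_nonneg _)
      have h5 : (ω + 1 : ℝ) * R < (ω + 1 : ℝ) * (q * Nat.totient h) := by
        calc (ω + 1 : ℝ) * R < h * q := hq1
          _ ≤ (Nat.totient h * (ω + 1)) * q := h4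
          _ = (ω + 1 : ℝ) * (q * Nat.totient h) := by ring
      exact lt_of_mul_lt_mul_left h5 (by positivity)
    exact_mod_cast lt_of_le_of_lt h1 h2
  obtain ⟨m, hm1, hm2⟩ : ∃ m ∈ (Ico M (2 * M)).filter (fun m => m.Coprime h),
      m ∉ (Ico M (2 * M)).filter (fun m : ℕ => m.Coprime h ∧
      ∃ a ∈ n • S - n • S, a ≠ 0 ∧ (m : ℤ) ∣ a) := by
    by_contra hcon
    push Not at hcon
    exact absurd (card_le_card hcon) (not_le.2 hlt)
  rw [mem_filter, mem_Ico] at hm1
  obtain ⟨⟨hm3, hm4⟩, hm5⟩ := hm1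
  refine ⟨m, by omega, ?_, ?_⟩
  · have h1 : (m : ℝ) ≤ 2 * M := by exact_mod_cast hm4.le
    have h2 : (h : ℝ) ≤ S.card := by exact_mod_cast hle.trans hbig
    have h3 : (m : ℝ) ≤ 2 * ((ω + 1 : ℝ) * R) + 2 * S.card := by
      rw [hMR] at h1
      linarith
    refine h3.trans ?_
    have h4 : (ω + 1 : ℝ) * R ≤ (2 * w + 1) * R :=
      mul_le_mul_of_nonneg_right (by linarith) hR0.le
    have h5 : 2 * (S.card : ℝ) ≤ 2 * D := by linarith
    have hw0 : 0 ≤ 2 * w + 1 := by linarith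
    have h6 : 0 ≤ (2 * w + 1) * R := mul_nonneg hw0 hR0.le
    calc 2 * ((ω + 1 : ℝ) * R) + 2 * S.card ≤ 2 * ((2 * w + 1) * R) + 2 * D := by
          linarith
      _ ≤ 4 * ((2 * w + 1) * R) + 2 * D := by linarith
      _ = (8 * (2 * w + 1) * (1 + Real.log Y) + 2) * D := by
          rw [hR]
          ring
  · intro a ha ha0 hdvd
    apply hm2
    rw [mem_filter, mem_Ico]
    exact ⟨⟨hm3, hm4⟩, hm5, a, ha, ha0, hdvd⟩

/-- small sets -/
theorem smallD {S : Finset ℤ} {D : ℝ}
    {n X : ℕ} (hDS : ((n • S - n • S).card : ℝ) ≤ D) (hSX : ∀ x ∈ S, 0 ≤ x ∧ x ≤ X) (hX : 1 ≤ n * X) {M : ℕ} (hM : 20000000 ≤ M)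
    (hMb : 4 * (D * Real.log (n * X : ℕ)) ≤ M) :
    ∃ m : ℕ, m.Prime ∧ m ≤ M ∧ ∀ a ∈ n • S - n • S, a ≠ 0 → ¬ (m : ℤ) ∣ a := by
  classical
  by_contra hcon
  push Not at hcon
  have h1 := theta_big hM
  rw [Chebyshev.theta_eq_log_primorial, Nat.floor_natCast] at h1
  have h2 : primorial M ∣ ∏ a ∈ (n • S - n • S).erase 0, a.natAbs := by
    unfold primorial
    apply Finset.prod_primes_dvd
    · intro p hp
      rw [mem_filter] at hp
      exact hp.2.prime
    · intro p hp
      rw [mem_filter, mem_range] at hp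
      obtain ⟨a, ha, ha0, hd⟩ := hcon p hp.2 (by omega)
      exact (Int.natCast_dvd.1 hd).trans (dvd_prod_of_mem _ (mem_erase.2 ⟨ha0, ha⟩))
  have hpos : 0 < ∏ a ∈ (n • S - n • S).erase 0, a.natAbs :=
    prod_pos fun a ha => Int.natAbs_pos.2 (mem_erase.1 ha).1
  have h3 : (primorial M : ℝ) ≤ ∏ a ∈ (n • S - n • S).erase 0, (a.natAbs : ℝ) := by
    exact_mod_cast Nat.le_of_dvd hpos h2
  have h4 := Real.log_le_log (by exact_mod_cast primorial_pos M) h3
  rw [Real.log_prod (fun a ha => by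
    have := Int.natAbs_pos.2 (mem_erase.1 ha).1
    positivity)] at h4
  have hlogX : 0 ≤ Real.log (n * X : ℕ) := Real.log_nonneg (by exact_mod_cast hX)
  have h5 : ∑ a ∈ (n • S - n • S).erase 0, Real.log (a.natAbs : ℝ) ≤
      ∑ a ∈ (n • S - n • S).erase 0, Real.log (n * X : ℕ) := by
    refine sum_le_sum fun a ha => ?_
    rw [mem_erase] at ha
    apply Real.log_le_log
    · exact_mod_cast Int.natAbs_pos.2 ha.1
    · have h6 := diff_bound hSX a ha.2
      have : a.natAbs ≤ n * X := by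
        have : ((a.natAbs : ℕ) : ℤ) ≤ ((n * X : ℕ) : ℤ) := by
          rw [Int.natCast_natAbs]
          exact h6
        exact_mod_cast this
      exact_mod_cast this
  rw [sum_const, nsmul_eq_mul] at h5
  have h6 : (((n • S - n • S).erase 0).card : ℝ) ≤ D := by
    have h7 : (((n • S - n • S).erase 0).card : ℝ) ≤ ((n • S - n • S).card : ℝ) := by
      exact_mod_cast card_le_card (erase_subset _ _)
    exact h7.trans hDS
  have h7 := mul_le_mul_of_nonneg_right h6 hlogX
  linarith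

/-- models in cyclic groups whose order is close to the size of the iterated difference set -/
theorem modelD {G : Type*} [AddCommGroup G] [DecidableEq G]
    (htf : ∀ (n : ℕ) (x : G), n ≠ 0 → n • x = 0 → x = 0) {K : ℝ} {n : ℕ} (hn : 2 ≤ n)
    {S : Finset G} (hS : S.Nonempty) (hK : ((S + S).card : ℝ) ≤ K * S.card) {D : ℝ}
    (hD : (((n + 1) • S - n • S).card : ℝ) ≤ D) :
    ∃ (m : ℕ) (φ : G → ZMod m), 0 < m ∧
      (m : ℝ) ≤ 400 * (100000000000 * (2 * n + 1 : ℕ) * (2 * K) ^ (30000 : ℝ)) ^ 3 * D ∧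
      IsoN n S φ := by
  classical
  have hK1 : 1 ≤ K := one_le_K hS hK
  have hSpos : 0 < S.card := hS.card_pos
  have hSR : (1 : ℝ) ≤ S.card := by exact_mod_cast hSpos
  have hnR : (2 : ℝ) ≤ n := by exact_mod_cast hn
  obtain ⟨θ, hθN, hb⟩ := compressGN htf (n := 2 * n + 1) (by omega) hS hK
  have hθ : IsoN n S θ := hθN.mono (by omega) hS
  have hc' : (S.image θ).card = S.card := hθ.card_image hn
  have hD' : (((n + 1) • S.image θ - n • S.image θ).card : ℝ) ≤ D :=
    le_trans (by exact_mod_cast card_iter_le hθN) hD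
  have hSD : (S.card : ℝ) ≤ D := by
    refine le_trans ?_ hD
    exact_mod_cast card_le_iter hS n
  have hDn : ((n • S.image θ - n • S.image θ).card : ℝ) ≤ D := by
    refine le_trans ?_ hD'
    exact_mod_cast iter_le_succ (hS.image θ) n
  have hS' : (S.image θ).Nonempty := hS.image θ
  have hK' : ((S.image θ + S.image θ).card : ℝ) ≤ K * (S.image θ).card := by
    rw [hc']
    refine le_trans ?_ hK
    exact_mod_cast hθ.card_sum hn
  set A : ℝ := 100000000000 * (2 * n + 1 : ℕ) * (2 * K) ^ (30000 : ℝ) with hA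
  set J : ℕ := ⌈lenN (2 * n + 1) K⌉₊ with hJ
  set k : ℕ := Nat.log 2 J + 2 with hk
  obtain ⟨hA0, hJ1, hk1, hlogN, hkA⟩ := params (n := 2 * n + 1) (by omega) hK1 hA hJ hk
  have hJR : (1 : ℝ) ≤ J := by exact_mod_cast hJ1
  have hlog : Real.log (n * J) ≤ 2 * A := by
    refine le_trans (Real.log_le_log (by positivity) ?_) hlogN
    apply mul_le_mul_of_nonneg_right _ (by linarith)
    push_cast
    linarith
  have hlog0 : 0 ≤ Real.log (n * J) := Real.log_nonneg (by nlinarith)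
  have hSX : ∀ x ∈ S.image θ, 0 ≤ x ∧ x ≤ (J * (S.image θ).card : ℕ) := by
    intro x hx
    obtain ⟨y, hy, rfl⟩ := mem_image.1 hx
    obtain ⟨h1, h2⟩ := hb y hy
    refine ⟨h1, ?_⟩
    rw [hc']
    have h3 : (θ y : ℝ) ≤ ((J * S.card : ℕ) : ℝ) := by
      push_cast
      refine h2.le.trans (mul_le_mul_of_nonneg_right ?_ (by linarith))
      exact Nat.le_ceil _
    exact_mod_cast h3
  have hA3 : 0 < A ^ 3 := by positivity
  have hD0 : 0 < D := by linarith
  suffices hmain : ∃ m : ℕ, 0 < m ∧ (m : ℝ) ≤ 400 * A ^ 3 * D ∧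
      ∀ a ∈ n • S.image θ - n • S.image θ, a ≠ 0 → ¬ (m : ℤ) ∣ a by
    obtain ⟨m, hm0, hm1, hm2⟩ := hmain
    exact ⟨m, fun x => ((θ x : ℤ) : ZMod m), hm0, hm1, hθ.comp (isoN_cast hm2)⟩
  have hA1 : 1 ≤ A := by linarith
  have hA2 : A ≤ A ^ 2 := by nlinarith
  have hA23 : A ^ 2 ≤ A ^ 3 := by nlinarith [sq_nonneg A]
  rcases le_or_gt ((n * J) ^ k) (S.image θ).card with hbig | hsm
  · obtain ⟨m, hm0, hm1, hm2⟩ := largeD hS' hD' (by rw [hc']; exact hSD) (by omega) hJ1 hSX hk1 hbig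
      (w := 6 * A ^ 2) (by
        calc (k : ℝ) * Real.log (n * J) ≤ (3 * A) * (2 * A) :=
              mul_le_mul hkA hlog hlog0 (by linarith)
          _ = 6 * A ^ 2 := by ring)
    refine ⟨m, hm0, hm1.trans ?_, hm2⟩
    apply mul_le_mul_of_nonneg_right _ (by linarith)
    have h1 : 8 * (2 * (6 * A ^ 2) + 1) * (1 + Real.log (n * J)) ≤
        8 * (2 * (6 * A ^ 2) + 1) * (1 + 2 * A) := by
      apply mul_le_mul_of_nonneg_left _ (by positivity)
      linarith
    have h2 : 8 * (2 * (6 * A ^ 2) + 1) * (1 + 2 * A) + 2 ≤ 400 * A ^ 3 := by nlinarith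
    linarith
  · obtain ⟨c0, hc0⟩ : ∃ c0 : ℕ, c0 = 20000000 := ⟨_, rfl⟩
    obtain ⟨M, hM⟩ : ∃ M : ℕ, M = ⌈32 * A ^ 2 * D⌉₊ + c0 := ⟨_, rfl⟩
    have hMle : 20000000 ≤ M := by
      rw [hM, hc0]
      exact Nat.le_add_left _ _
    have hc0R : (c0 : ℝ) = 20000000 := by
      rw [hc0]
      norm_num
    have hkS : Real.log (n * (J * (S.image θ).card) : ℕ) ≤ 8 * A ^ 2 := by
      have h1 : n * (J * (S.image θ).card) ≤ (n * J) ^ (k + 1) := by
        rw [pow_succ', ← mul_assoc]
        exact Nat.mul_le_mul_left _ hsm.le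
      have h2 : ((n * (J * (S.image θ).card) : ℕ) : ℝ) ≤ ((n : ℝ) * J) ^ (k + 1) := by exact_mod_cast h1
      have h3 : (0 : ℝ) < ((n * (J * (S.image θ).card) : ℕ) : ℝ) := by
        rw [hc']
        have : 0 < n * (J * S.card) := Nat.mul_pos (by omega) (Nat.mul_pos hJ1 hSpos)
        exact_mod_cast this
      have h4 := Real.log_le_log h3 h2
      rw [Real.log_pow] at h4
      refine h4.trans ?_
      push_cast
      calc ((k : ℝ) + 1) * Real.log (n * J) ≤ (3 * A + 1) * (2 * A) :=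
            mul_le_mul (by linarith) hlog hlog0 (by linarith)
        _ ≤ 8 * A ^ 2 := by nlinarith
    obtain ⟨m, hm0, hm1, hm2⟩ := smallD (n := n) hDn (X := J * (S.image θ).card) hSX
      (Nat.mul_pos (by omega) (Nat.mul_pos hJ1 (by rw [hc']; exact hSpos))) (M := M)
      hMle (by
        rw [hc'] at hkS ⊢
        have h2 : D * Real.log (n * (J * S.card) : ℕ) ≤ D * (8 * A ^ 2) :=
          mul_le_mul_of_nonneg_left hkS hD0.le
        have h3 := Nat.le_ceil (32 * A ^ 2 * D)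
        rw [hM]
        push_cast at h2 ⊢
        rw [hc0R]
        linarith)
    refine ⟨m, hm0.pos, ?_, hm2⟩
    have h1 : (m : ℝ) ≤ M := by exact_mod_cast hm1
    refine h1.trans ?_
    have h2 := (Nat.ceil_lt_add_one (a := 32 * A ^ 2 * D) (by positivity)).le
    rw [hM]
    push_cast
    rw [hc0R]
    have h3 : (100000000000 : ℝ) ≤ A ^ 3 := by linarith
    have h5 : A ^ 3 ≤ A ^ 3 * D := le_mul_of_one_le_right hA3.le (by linarith)
    have h6 : 32 * A ^ 2 * D ≤ 32 * A ^ 3 * D := by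
      gcongr
    linarith


end Pool.Agent.H602.EX
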