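import Mathlib

/-!
# Reduction modulo a lattice generated by short vectors, and counting short vectors
-/

set_option autoImplicit false

open Finset

namespace Pool.Agent.H602.EX

/-- an element with a multiple in the group generated by short vectors is congruent to a short one -/
theorem reduce {r k : ℕ} {H : Type*} [AddCommGroup H]
    (S : Set ((Fin r → ℤ) × (Fin k → ℤ) × H)) (a : ℤ) (b : Fin k → ℤ)
    (hS1 : ∀ ρ ∈ S, ∑ i, |ρ.1 i| ≤ a) (hS2 : ∀ ρ ∈ S, ∀ i, |ρ.2.1 i| ≤ b i)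
    (ha : 0 ≤ a) (hb : ∀ i, 0 ≤ b i)
    (z : (Fin r → ℤ) × (Fin k → ℤ) × H) {N : ℕ} (hN : N ≠ 0)
    (hz : N • z ∈ AddSubgroup.closure S) :
    ∃ z' : (Fin r → ℤ) × (Fin k → ℤ) × H, z - z' ∈ AddSubgroup.closure S ∧
      ∑ i, |z'.1 i| ≤ ((r + k : ℕ) : ℤ) * a ∧ ∀ i, |z'.2.1 i| ≤ ((r + k : ℕ) : ℤ) * b i := by
  classical
  let κ : (Fin r → ℤ) × (Fin k → ℤ) × H →+ (Fin r → ℚ) × (Fin k → ℚ) :=
    { toFun := fun x => (fun i => (x.1 i : ℚ), fun i => (x.2.1 i : ℚ))
      map_zero' := by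
        refine Prod.ext ?_ ?_ <;> · funext i; simp
      map_add' := by
        intro x y
        refine Prod.ext ?_ ?_ <;> · funext i; simp }
  have hκ1 : ∀ x i, (κ x).1 i = (x.1 i : ℚ) := fun _ _ => rfl
  have hκ2 : ∀ x i, (κ x).2 i = (x.2.1 i : ℚ) := fun _ _ => rfl
  obtain ⟨B, hBS, hspan, hli⟩ := exists_linearIndependent ℚ (κ '' S)
  have hfin : B.Finite := hli.setFinite
  set F := hfin.toFinset with hF
  have hFB : (F : Set ((Fin r → ℚ) × (Fin k → ℚ))) = B := hfin.coe_toFinset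
  have hcard : F.card ≤ r + k := by
    have h1 : LinearIndependent ℚ (fun x : F => (x : (Fin r → ℚ) × (Fin k → ℚ))) := by
      have : (F : Set ((Fin r → ℚ) × (Fin k → ℚ))) = B := hFB
      have h2 : LinearIndepOn ℚ id (F : Set ((Fin r → ℚ) × (Fin k → ℚ))) := by
        rw [hFB]
        exact hli
      exact h2
    have h2 := h1.fintype_card_le_finrank
    rw [Module.finrank_prod, Module.finrank_fin_fun, Module.finrank_fin_fun] at h2
    simpa using h2
  have hcl : ∀ x ∈ AddSubgroup.closure S, κ x ∈ Submodule.span ℚ (κ '' S) := by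
    intro x hx
    induction hx using AddSubgroup.closure_induction with
    | mem x hx => exact Submodule.subset_span (Set.mem_image_of_mem _ hx)
    | zero => rw [map_zero]; exact Submodule.zero_mem _
    | add x y _ _ hx hy => rw [map_add]; exact Submodule.add_mem _ hx hy
    | neg x _ hx => rw [map_neg]; exact Submodule.neg_mem _ hx
  have hzs : κ z ∈ Submodule.span ℚ (F : Set ((Fin r → ℚ) × (Fin k → ℚ))) := by
    rw [hFB, hspan]
    have h1 := hcl _ hz
    rw [map_nsmul] at h1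
    have h2 := Submodule.smul_mem _ ((N : ℚ)⁻¹) h1
    rw [← Nat.cast_smul_eq_nsmul ℚ, smul_smul, inv_mul_cancel₀ (by exact_mod_cast hN), one_smul]
      at h2
    exact h2
  rw [Submodule.mem_span_finset] at hzs
  obtain ⟨q, -, hq⟩ := hzs
  have hch : ∀ β : (Fin r → ℚ) × (Fin k → ℚ), ∃ ρ : (Fin r → ℤ) × (Fin k → ℤ) × H,
      β ∈ F → ρ ∈ S ∧ κ ρ = β := by
    intro β
    by_cases h : β ∈ F
    · have : β ∈ B := by
        rw [← hFB]
        exact h
      obtain ⟨ρ, hρ, hρβ⟩ := hBS this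
      exact ⟨ρ, fun _ => ⟨hρ, hρβ⟩⟩
    · exact ⟨0, fun h' => absurd h' h⟩
  choose ρ hρ using hch
  refine ⟨z - ∑ β ∈ F, ⌊q β⌋ • ρ β, ?_, ?_, ?_⟩
  · rw [sub_sub_cancel]
    exact AddSubgroup.sum_mem _ fun β hβ => AddSubgroup.zsmul_mem _
      (AddSubgroup.subset_closure (hρ β hβ).1) _
  · have hval : ∀ i, (((z - ∑ β ∈ F, ⌊q β⌋ • ρ β).1 i : ℤ) : ℚ) =
        ∑ β ∈ F, Int.fract (q β) * ((ρ β).1 i : ℚ) := by
      intro i
      rw [← hκ1, map_sub, map_sum, ← hq, ← sum_sub_distrib, Prod.fst_sum, Finset.sum_apply]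
      refine sum_congr rfl fun β hβ => ?_
      rw [map_zsmul, (hρ β hβ).2]
      have h1 := congrArg (fun x => x.1 i) (hρ β hβ).2
      simp only [hκ1] at h1
      simp only [Prod.fst_sub, Prod.smul_fst, Pi.sub_apply, Pi.smul_apply, smul_eq_mul]
      rw [h1, Int.fract, zsmul_eq_mul]
      ring
    have h2 : ((∑ i, |(z - ∑ β ∈ F, ⌊q β⌋ • ρ β).1 i| : ℤ) : ℚ) ≤ (F.card : ℚ) * a := by
      push_cast
      calc ∑ i, |(((z - ∑ β ∈ F, ⌊q β⌋ • ρ β).1 i : ℤ) : ℚ)|
          ≤ ∑ i, ∑ β ∈ F, |((ρ β).1 i : ℚ)| := by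
            refine sum_le_sum fun i _ => ?_
            rw [hval]
            refine (abs_sum_le_sum_abs _ _).trans (sum_le_sum fun β _ => ?_)
            rw [abs_mul, abs_of_nonneg (Int.fract_nonneg _)]
            exact mul_le_of_le_one_left (abs_nonneg _) (Int.fract_lt_one _).le
        _ = ∑ β ∈ F, ∑ i, |((ρ β).1 i : ℚ)| := sum_comm
        _ ≤ ∑ β ∈ F, (a : ℚ) := by
            refine sum_le_sum fun β hβ => ?_
            have := hS1 _ (hρ β hβ).1
            exact_mod_cast this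
        _ = (F.card : ℚ) * a := by rw [sum_const, nsmul_eq_mul]
    have h3 : ∑ i, |(z - ∑ β ∈ F, ⌊q β⌋ • ρ β).1 i| ≤ (F.card : ℤ) * a := by exact_mod_cast h2
    refine h3.trans (mul_le_mul_of_nonneg_right ?_ ha)
    exact_mod_cast hcard
  · intro i
    have hval : (((z - ∑ β ∈ F, ⌊q β⌋ • ρ β).2.1 i : ℤ) : ℚ) =
        ∑ β ∈ F, Int.fract (q β) * ((ρ β).2.1 i : ℚ) := by
      rw [← hκ2, map_sub, map_sum, ← hq, ← sum_sub_distrib, Prod.snd_sum, Finset.sum_apply]
      refine sum_congr rfl fun β hβ => ?_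
      rw [map_zsmul, (hρ β hβ).2]
      have h1 := congrArg (fun x => x.2 i) (hρ β hβ).2
      simp only [hκ2] at h1
      simp only [Prod.snd_sub, Prod.smul_snd, Pi.sub_apply, Pi.smul_apply, smul_eq_mul]
      rw [h1, Int.fract, zsmul_eq_mul]
      ring
    have h2 : ((|(z - ∑ β ∈ F, ⌊q β⌋ • ρ β).2.1 i| : ℤ) : ℚ) ≤ (F.card : ℚ) * b i := by
      push_cast
      rw [hval]
      calc |∑ β ∈ F, Int.fract (q β) * ((ρ β).2.1 i : ℚ)|
          ≤ ∑ β ∈ F, |((ρ β).2.1 i : ℚ)| := by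
            refine (abs_sum_le_sum_abs _ _).trans (sum_le_sum fun β _ => ?_)
            rw [abs_mul, abs_of_nonneg (Int.fract_nonneg _)]
            exact mul_le_of_le_one_left (abs_nonneg _) (Int.fract_lt_one _).le
        _ ≤ ∑ β ∈ F, (b i : ℚ) := by
            refine sum_le_sum fun β hβ => ?_
            have := hS2 _ (hρ β hβ).1 i
            exact_mod_cast this
        _ = (F.card : ℚ) * b i := by rw [sum_const, nsmul_eq_mul]
    have h3 : |(z - ∑ β ∈ F, ⌊q β⌋ • ρ β).2.1 i| ≤ (F.card : ℤ) * b i := by exact_mod_cast h2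
    refine h3.trans (mul_le_mul_of_nonneg_right ?_ (hb i))
    exact_mod_cast hcard

/-- the geometric sum -/
theorem geom (m : ℕ) : ∑ t ∈ Icc (-(m : ℤ)) m, ((1 : ℝ) / 2) ^ t.natAbs = 3 - 2 * (1 / 2) ^ m := by
  induction m with
  | zero => norm_num
  | succ m ih =>
    have h1 : Icc (-((m + 1 : ℕ) : ℤ)) ((m + 1 : ℕ) : ℤ) =
        insert (-((m + 1 : ℕ) : ℤ)) (insert ((m + 1 : ℕ) : ℤ) (Icc (-(m : ℤ)) m)) := by
      ext t
      simp only [mem_Icc, mem_insert]
      push_cast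
      omega
    rw [h1, sum_insert, sum_insert, ih, Int.natAbs_neg, Int.natAbs_natCast]
    · rw [pow_succ]
      ring
    · rw [mem_Icc]
      push_cast
      omega
    · rw [mem_insert, mem_Icc]
      push_cast
      omega

/-- the short vectors -/
noncomputable def ball (r m : ℕ) : Finset (Fin r → ℤ) :=
  (Fintype.piFinset fun _ => Icc (-(m : ℤ)) m).filter fun x => ∑ i, |x i| ≤ m

theorem mem_ball {r m : ℕ} {x : Fin r → ℤ} : x ∈ ball r m ↔ ∑ i, |x i| ≤ m := by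
  rw [ball, mem_filter, Fintype.mem_piFinset]
  constructor
  · exact fun h => h.2
  · intro h
    refine ⟨fun i => ?_, h⟩
    rw [mem_Icc, ← abs_le]
    exact (single_le_sum (f := fun i => |x i|) (fun i _ => abs_nonneg _) (mem_univ i)).trans h

theorem card_ball (r m : ℕ) : ((ball r m).card : ℝ) ≤ 2 ^ m * 3 ^ r := by
  have h1 : ∀ x ∈ ball r m, (1 : ℝ) ≤ 2 ^ m * ∏ i, ((1 : ℝ) / 2) ^ (x i).natAbs := by
    intro x hx
    rw [mem_ball] at hx
    rw [prod_pow_eq_pow_sum, one_div, inv_pow, ← div_eq_mul_inv, one_le_div (by positivity)]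
    refine pow_le_pow_right₀ (by norm_num) ?_
    have h2 : ((∑ i, (x i).natAbs : ℕ) : ℤ) ≤ m := by
      push_cast
      simpa using hx
    exact_mod_cast h2
  calc ((ball r m).card : ℝ) = ∑ _x ∈ ball r m, (1 : ℝ) := by simp
    _ ≤ ∑ x ∈ ball r m, 2 ^ m * ∏ i, ((1 : ℝ) / 2) ^ (x i).natAbs := sum_le_sum h1
    _ ≤ ∑ x ∈ Fintype.piFinset (fun _ : Fin r => Icc (-(m : ℤ)) m),
          2 ^ m * ∏ i, ((1 : ℝ) / 2) ^ (x i).natAbs :=
        sum_le_sum_of_subset_of_nonneg (filter_subset _ _) fun _ _ _ => by positivity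
    _ = 2 ^ m * ∏ _i : Fin r, ∑ t ∈ Icc (-(m : ℤ)) m, ((1 : ℝ) / 2) ^ t.natAbs := by
        rw [← mul_sum, prod_univ_sum]
    _ ≤ 2 ^ m * 3 ^ r := by
        refine mul_le_mul_of_nonneg_left ?_ (by positivity)
        rw [prod_const, card_univ, Fintype.card_fin, geom]
        refine pow_le_pow_left₀ ?_ ?_ r
        · have : ((1 : ℝ) / 2) ^ m ≤ 1 := pow_le_one₀ (by norm_num) (by norm_num)
          linarith
        · have : (0 : ℝ) ≤ (1 / 2) ^ m := by positivity
          linarith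

/-- the box -/
noncomputable def box {k : ℕ} (M : ℕ) (L : Fin k → ℕ) : Finset (Fin k → ℤ) :=
  Fintype.piFinset fun i => Icc (-((M * L i : ℕ) : ℤ)) ((M * L i : ℕ) : ℤ)

theorem mem_box {k M : ℕ} {L : Fin k → ℕ} {x : Fin k → ℤ} :
    x ∈ box M L ↔ ∀ i, |x i| ≤ ((M * L i : ℕ) : ℤ) := by
  rw [box, Fintype.mem_piFinset]
  exact forall_congr' fun i => by rw [mem_Icc, abs_le]

theorem card_box {k M : ℕ} (hM : 1 ≤ M) (L : Fin k → ℕ) :
    (box M L).card ≤ M ^ k * ∏ i, (2 * L i + 1) := by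
  rw [box, Fintype.card_piFinset]
  calc ∏ i, (Icc (-((M * L i : ℕ) : ℤ)) ((M * L i : ℕ) : ℤ)).card
      ≤ ∏ i : Fin k, (M * (2 * L i + 1)) := by
        refine prod_le_prod' fun i _ => ?_
        rw [Int.card_Icc]
        have : M * (2 * L i + 1) = 2 * (M * L i) + M := by ring
        omega
    _ = M ^ k * ∏ i, (2 * L i + 1) := by
        rw [prod_mul_distrib, prod_const, card_univ, Fintype.card_fin]

end Pool.Agent.H602.EX
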