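import Pool.Agent.H602.EX.Sparse
import Pool.Agent.H602.EX.Tors
import Pool.Agent.H602.EX.ModelD
import Pool.Agent.H602.GM.Red

/-!
# Models of simply exponential order in every abelian group
-/

set_option autoImplicit false

open Finset
open scoped Pointwise

namespace Pool.Agent.H602.EX

open Pool.Agent.H602.MD Pool.Agent.H602.GM

/-- the quotient by the short relations is a model -/
theorem quotient_model {Γ M : Type*} [AddCommGroup Γ] [AddCommGroup M] {n : ℕ} {A : Finset Γ}
    (S : Set M) (Φ : M →+ Γ) (l : Γ → M) (a₀ : Γ) (hl : ∀ a ∈ A, Φ (l a) = a - a₀)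
    (hS : ∀ ρ ∈ S, Φ ρ = 0)
    (hS' : ∀ s t : Multiset Γ, (∀ x ∈ s, x ∈ A) → (∀ x ∈ t, x ∈ A) → s.card = n → t.card = n →
      Φ (-(s.map l).sum + (t.map l).sum) = 0 → -(s.map l).sum + (t.map l).sum ∈ S) :
    IsoN n A (fun a => ((l a : M) : M ⧸ AddSubgroup.closure S)) := by
  have hcl : AddSubgroup.closure S ≤ Φ.ker := (AddSubgroup.closure_le _).2 fun ρ hρ => hS ρ hρ
  have hmap : ∀ s : Multiset Γ, (s.map (fun a => ((l a : M) : M ⧸ AddSubgroup.closure S))).sum =
      (((s.map l).sum : M) : M ⧸ AddSubgroup.closure S) := by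
    intro s
    induction s using Multiset.induction_on with
    | empty =>
      simp only [Multiset.map_zero, Multiset.sum_zero]
      rfl
    | cons a s ih =>
      simp only [Multiset.map_cons, Multiset.sum_cons]
      rw [ih]
      rfl
  have hΦ : ∀ s : Multiset Γ, (∀ x ∈ s, x ∈ A) → Φ (s.map l).sum = s.sum - s.card • a₀ := by
    intro s
    induction s using Multiset.induction_on with
    | empty => intro _; simp
    | cons a s ih =>
      intro hs
      rw [Multiset.map_cons, Multiset.sum_cons, map_add, Multiset.sum_cons, Multiset.card_cons,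
        hl a (hs a (Multiset.mem_cons_self a s)),
        ih fun x hx => hs x (Multiset.mem_cons_of_mem hx), succ_nsmul]
      abel
  intro s t hs ht hsn htn
  rw [hmap, hmap, QuotientAddGroup.eq]
  have e : Φ (-(s.map l).sum + (t.map l).sum) = t.sum - s.sum := by
    rw [map_add, map_neg, hΦ s hs, hΦ t ht, hsn, htn]
    abel
  constructor
  · intro h
    have h1 := hcl h
    rw [AddMonoidHom.mem_ker, e, sub_eq_zero] at h1
    exact h1.symm
  · intro h
    refine AddSubgroup.subset_closure (hS' s t hs ht hsn htn ?_)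
    rw [e, h, sub_self]

theorem sum_bound1 {Γ : Type*} {r : ℕ} {H : Type*} [AddCommGroup H] (l : Γ → (Fin r → ℤ) × H)
    (s : Multiset Γ) (a : ℤ) (h : ∀ x ∈ s, ∑ i, |(l x).1 i| ≤ a) :
    ∑ i, |(s.map l).sum.1 i| ≤ s.card * a := by
  induction s using Multiset.induction_on with
  | empty => simp
  | cons x s ih =>
    rw [Multiset.map_cons, Multiset.sum_cons, Multiset.card_cons]
    have h1 := ih fun y hy => h y (Multiset.mem_cons_of_mem hy)
    have h2 := h x (Multiset.mem_cons_self x s)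
    calc ∑ i, |(l x + (s.map l).sum).1 i| ≤ ∑ i, (|(l x).1 i| + |(s.map l).sum.1 i|) :=
          sum_le_sum fun i _ => abs_add_le _ _
      _ ≤ a + s.card * a := by
          rw [sum_add_distrib]
          exact add_le_add h2 h1
      _ = _ := by push_cast; ring

theorem sum_bound2 {Γ : Type*} {M : Type*} [AddCommGroup M] (π : M →+ ℤ) (l : Γ → M)
    (s : Multiset Γ) (a : ℤ) (h : ∀ x ∈ s, |π (l x)| ≤ a) : |π (s.map l).sum| ≤ s.card * a := by
  induction s using Multiset.induction_on with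
  | empty => simp
  | cons x s ih =>
    rw [Multiset.map_cons, Multiset.sum_cons, Multiset.card_cons, map_add]
    have h1 := ih fun y hy => h y (Multiset.mem_cons_of_mem hy)
    have h2 := h x (Multiset.mem_cons_self x s)
    refine (abs_add_le _ _).trans ((add_le_add h2 h1).trans (le_of_eq ?_))
    push_cast
    ring

/-- the count of the model by short vectors -/
theorem count {r k : ℕ} {H F T : Type*} [AddCommGroup H] [Finite H] [AddCommGroup F]
    [AddCommGroup T] [Finite T] [DecidableEq F] {Z : Finset F}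
    (S : Set ((Fin r → ℤ) × (Fin k → ℤ) × H)) (a a₁ m : ℕ) (L : Fin k → ℕ) (b b₁ M' : ℕ)
    (hS1 : ∀ ρ ∈ S, ∑ i, |ρ.1 i| ≤ (a : ℤ)) (hS2 : ∀ ρ ∈ S, ∀ i, |ρ.2.1 i| ≤ ((b * L i : ℕ) : ℤ))
    (hm : a₁ + (r + k) * a ≤ m) (hM : b₁ + (r + k) * b ≤ M')
    (e : (((Fin r → ℤ) × (Fin k → ℤ) × H) ⧸ AddSubgroup.closure S) ≃+ F × T)
    (hZ : ∀ z ∈ Z, ∃ y : (Fin r → ℤ) × (Fin k → ℤ) × H, (e (QuotientAddGroup.mk y)).1 = z ∧
      ∑ i, |y.1 i| ≤ (a₁ : ℤ) ∧ ∀ i, |y.2.1 i| ≤ ((b₁ * L i : ℕ) : ℤ)) :
    Z.card * Nat.card T ≤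
      (ball r m).card * ((box M' L).card * Nat.card H) := by
  classical
  have := Fintype.ofFinite H
  have := Fintype.ofFinite T
  have hsub : Z ×ˢ (univ : Finset T) ⊆
      (ball r m ×ˢ (box M' L ×ˢ (univ : Finset H))).image (fun w => e (QuotientAddGroup.mk w)) := by
    rintro ⟨x, t⟩ hxt
    rw [mem_product] at hxt
    obtain ⟨y, hyx, hy1, hy2⟩ := hZ x hxt.1
    obtain ⟨z, hz⟩ := QuotientAddGroup.mk_surjective (e.symm (x, t) - QuotientAddGroup.mk y)
    have hN : Nat.card T ≠ 0 := Nat.card_pos.ne'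
    have hz' : Nat.card T • z ∈ AddSubgroup.closure S := by
      rw [← QuotientAddGroup.eq_zero_iff, QuotientAddGroup.mk_nsmul, hz]
      apply e.injective
      rw [map_nsmul, map_sub, e.apply_symm_apply, map_zero]
      refine Prod.ext ?_ ?_
      · rw [Prod.smul_fst, Prod.fst_sub, hyx, sub_self, smul_zero]
        rfl
      · rw [Prod.smul_snd]
        exact card_nsmul_eq_zero'
    obtain ⟨z', hzz, h1, h2⟩ := reduce S (a : ℤ) (fun i => ((b * L i : ℕ) : ℤ)) hS1 hS2
      (by positivity) (fun i => by positivity) z hN hz'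
    refine mem_image.2 ⟨y + z', ?_, ?_⟩
    · rw [mem_product, mem_product, mem_ball, mem_box]
      refine ⟨?_, ?_, mem_univ _⟩
      · calc ∑ i, |(y + z').1 i| ≤ ∑ i, (|y.1 i| + |z'.1 i|) :=
              sum_le_sum fun i _ => abs_add_le _ _
          _ ≤ a₁ + ((r + k : ℕ) : ℤ) * a := by
              rw [sum_add_distrib]
              exact add_le_add hy1 h1
          _ ≤ m := by exact_mod_cast hm
      · intro i
        calc |(y + z').2.1 i| ≤ |y.2.1 i| + |z'.2.1 i| := abs_add_le _ _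
          _ ≤ ((b₁ * L i : ℕ) : ℤ) + ((r + k : ℕ) : ℤ) * ((b * L i : ℕ) : ℤ) :=
              add_le_add (hy2 i) (h2 i)
          _ = (((b₁ + (r + k) * b) * L i : ℕ) : ℤ) := by push_cast; ring
          _ ≤ ((M' * L i : ℕ) : ℤ) := by
              exact_mod_cast Nat.mul_le_mul_right _ hM
    · rw [QuotientAddGroup.mk_add]
      have h3 : (QuotientAddGroup.mk z' : ((Fin r → ℤ) × (Fin k → ℤ) × H) ⧸ AddSubgroup.closure S) =
          QuotientAddGroup.mk z := by
        rw [QuotientAddGroup.eq, neg_add_eq_sub]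
        exact hzz
      rw [h3, hz, add_sub_cancel, e.apply_symm_apply]
  have h := card_le_card hsub
  rw [card_product, card_univ, ← Nat.card_eq_fintype_card] at h
  refine h.trans (card_image_le.trans ?_)
  rw [card_product, card_product, card_univ, ← Nat.card_eq_fintype_card]

theorem prod_model {F T N : Type*} [AddCommGroup F] [AddCommGroup T] [AddCommGroup N]
    [DecidableEq F] {A : Finset (F × T)} {n : ℕ} {φ : F → N} (hφ : IsoN n (A.image Prod.fst) φ) :
    IsoN n A (fun x => (φ x.1, x.2)) := by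
  have hmap : ∀ s : Multiset (F × T), (s.map (fun x => (φ x.1, x.2))).sum =
      (((s.map Prod.fst).map φ).sum, s.sum.2) := by
    intro s
    induction s using Multiset.induction_on with
    | empty =>
      simp only [Multiset.map_zero, Multiset.sum_zero]
      rfl
    | cons a s ih =>
      simp only [Multiset.map_cons, Multiset.sum_cons]
      rw [ih]
      rfl
  have hfst : ∀ s : Multiset (F × T), (s.map Prod.fst).sum = s.sum.1 := by
    intro s
    induction s using Multiset.induction_on with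
    | empty => simp
    | cons a s ih =>
      simp only [Multiset.map_cons, Multiset.sum_cons]
      rw [ih]
      rfl
  intro s t hs ht hsn htn
  rw [hmap, hmap, Prod.mk.injEq]
  have h1 := hφ (s.map Prod.fst) (t.map Prod.fst) (by
    intro x hx
    obtain ⟨y, hy, rfl⟩ := Multiset.mem_map.1 hx
    exact mem_image_of_mem _ (hs y hy)) (by
    intro x hx
    obtain ⟨y, hy, rfl⟩ := Multiset.mem_map.1 hx
    exact mem_image_of_mem _ (ht y hy)) (by rw [Multiset.card_map, hsn])
    (by rw [Multiset.card_map, htn])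
  rw [h1, hfst, hfst, Prod.ext_iff]

/-- the geometric sum -/
theorem geomx {x : ℝ} (hx : x ≠ 1) (m : ℕ) : ∑ t ∈ Icc (-(m : ℤ)) m, x ^ t.natAbs =
    (1 + x - 2 * x ^ (m + 1)) / (1 - x) := by
  have hx1 : (1 : ℝ) - x ≠ 0 := sub_ne_zero.2 hx.symm
  induction m with
  | zero =>
    rw [eq_div_iff hx1]
    norm_num
    ring
  | succ m ih =>
    have h1 : Icc (-((m + 1 : ℕ) : ℤ)) ((m + 1 : ℕ) : ℤ) =
        insert (-((m + 1 : ℕ) : ℤ)) (insert ((m + 1 : ℕ) : ℤ) (Icc (-(m : ℤ)) m)) := by
      ext t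
      simp only [mem_Icc, mem_insert]
      push_cast
      omega
    rw [h1, sum_insert, sum_insert, ih, Int.natAbs_neg, Int.natAbs_natCast]
    · field_simp
      ring
    · rw [mem_Icc]
      push_cast
      omega
    · rw [mem_insert, mem_Icc]
      push_cast
      omega

theorem card_ballx (r m : ℕ) {x : ℝ} (hx0 : 0 < x) (hx1 : x < 1) :
    ((ball r m).card : ℝ) ≤ x⁻¹ ^ m * ((1 + x) / (1 - x)) ^ r := by
  have h1 : ∀ y ∈ ball r m, (1 : ℝ) ≤ x⁻¹ ^ m * ∏ i, x ^ (y i).natAbs := by
    intro y hy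
    rw [mem_ball] at hy
    rw [prod_pow_eq_pow_sum, inv_pow, inv_mul_eq_div, one_le_div (by positivity)]
    refine pow_le_pow_of_le_one hx0.le hx1.le ?_
    have h2 : ((∑ i, (y i).natAbs : ℕ) : ℤ) ≤ m := by
      push_cast
      simpa using hy
    exact_mod_cast h2
  calc ((ball r m).card : ℝ) = ∑ _y ∈ ball r m, (1 : ℝ) := by simp
    _ ≤ ∑ y ∈ ball r m, x⁻¹ ^ m * ∏ i, x ^ (y i).natAbs := sum_le_sum h1
    _ ≤ ∑ y ∈ Fintype.piFinset (fun _ : Fin r => Icc (-(m : ℤ)) m),
          x⁻¹ ^ m * ∏ i, x ^ (y i).natAbs :=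
        sum_le_sum_of_subset_of_nonneg (filter_subset _ _) fun _ _ _ => by positivity
    _ = x⁻¹ ^ m * ∏ _i : Fin r, ∑ t ∈ Icc (-(m : ℤ)) m, x ^ t.natAbs := by
        rw [← mul_sum, prod_univ_sum]
    _ ≤ x⁻¹ ^ m * ((1 + x) / (1 - x)) ^ r := by
        refine mul_le_mul_of_nonneg_left ?_ (by positivity)
        rw [prod_const, card_univ, Fintype.card_fin]
        refine pow_le_pow_left₀ (sum_nonneg fun _ _ => by positivity) ?_ r
        rw [geomx hx1.ne]
        have h3 : 0 < 1 - x := by linarith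
        refine div_le_div_of_nonneg_right ?_ h3.le
        have : 0 ≤ x ^ (m + 1) := by positivity
        linarith

theorem card_balln (r m : ℕ) {n : ℕ} (hn : 1 ≤ n) :
    ((ball r m).card : ℝ) ≤ Real.exp (m / n) * (2 * n + 1) ^ r := by
  have hn0 : (0 : ℝ) < n := by exact_mod_cast hn
  have h1 := card_ballx r m (x := n / (n + 1)) (by positivity)
    (by rw [div_lt_one (by positivity)]; linarith)
  refine h1.trans (mul_le_mul ?_ (le_of_eq ?_) (by
    have : (0 : ℝ) < 1 - n / (n + 1) := by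
      rw [sub_pos, div_lt_one (by positivity)]
      linarith
    positivity) (Real.exp_pos _).le)
  · have h2 : ((n : ℝ) / (n + 1))⁻¹ ≤ Real.exp (1 / n) := by
      rw [inv_div, add_div, div_self hn0.ne', add_comm]
      exact Real.add_one_le_exp _
    calc ((n : ℝ) / (n + 1))⁻¹ ^ m ≤ Real.exp (1 / n) ^ m := pow_le_pow_left₀ (by positivity) h2 m
      _ = Real.exp (m / n) := by
          rw [← Real.exp_nat_mul]
          congr 1
          ring
  · congr 1
    field_simp
    ring

theorem numericE {n r k : ℕ} {K : ℝ} (hn : 2 ≤ n) (hK : 1 ≤ K) (hr : (r : ℝ) ≤ 230500000000 * K)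
    (hk : (k : ℝ) ≤ 30000 * Real.log (2 * K)) :
    Real.exp ((120000 * (1 + 2 * n * (r + k)) : ℕ) / n) * (2 * n + 1) ^ r *
      (((2 + 4 * n * (r + k) : ℕ) : ℝ) ^ k * Real.exp (32000000 * K)) ≤
      (2 * n) ^ (6 * 10 ^ 16 * K) := by
  obtain ⟨κ, hκ⟩ : ∃ κ : ℝ, κ = Real.log (2 * K) := ⟨_, rfl⟩
  obtain ⟨lam, hlam⟩ : ∃ lam : ℝ, lam = Real.log (2 * n) := ⟨_, rfl⟩
  have hnR : (2 : ℝ) ≤ n := by exact_mod_cast hn
  have hn0 : (0 : ℝ) < 2 * n := by linarith
  have hlam1 : 1 ≤ lam := by
    have h1 : Real.log 4 ≤ lam := by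
      rw [hlam]
      exact Real.log_le_log (by norm_num) (by linarith)
    have h2 : Real.log 4 = 2 * Real.log 2 := by
      rw [show (4 : ℝ) = 2 ^ 2 by norm_num, Real.log_pow]
      norm_num
    have := Real.log_two_gt_d9
    linarith
  have hexpl : Real.exp lam = 2 * n := by rw [hlam, Real.exp_log hn0]
  have hK0 : (0 : ℝ) < 2 * K := by linarith
  have hκ0 : 0 ≤ κ := by rw [hκ]; exact Real.log_nonneg (by linarith)
  have hκ1 : κ ≤ 2 * K := by
    rw [hκ]
    have := Real.log_le_sub_one_of_pos hK0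
    linarith
  have hκ2 : κ ^ 2 ≤ 8 * K := by
    have h1 : Real.log (2 * K) = 2 * Real.log (Real.sqrt (2 * K)) := by
      rw [Real.log_sqrt hK0.le]; ring
    have h2 : Real.log (Real.sqrt (2 * K)) ≤ Real.sqrt (2 * K) := by
      have := Real.log_le_sub_one_of_pos (Real.sqrt_pos.2 hK0)
      linarith
    have h3 : κ ≤ 2 * Real.sqrt (2 * K) := by rw [hκ, h1]; linarith
    calc κ ^ 2 ≤ (2 * Real.sqrt (2 * K)) ^ 2 := pow_le_pow_left₀ hκ0 h3 2
      _ = 4 * (Real.sqrt (2 * K)) ^ 2 := by ring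
      _ = 8 * K := by rw [Real.sq_sqrt hK0.le]; ring
  rw [← hκ] at hk
  have hKl : K ≤ K * lam := le_mul_of_one_le_right (by linarith) hlam1
  have hrk : ((r : ℝ) + k) ≤ 230500060000 * K := by linarith
  have two_le : (2 : ℝ) ≤ Real.exp 1 := by
    have := Real.add_one_le_exp (1 : ℝ)
    linarith
  have e2 : Real.exp ((120000 * (1 + 2 * n * (r + k)) : ℕ) / n) ≤
      Real.exp (60000 * (K * lam) + 240000 * (230500060000 * (K * lam))) := by
    apply Real.exp_le_exp.2
    rw [div_le_iff₀ (by linarith)]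
    push_cast
    have h1 : (n : ℝ) * (r + k) ≤ n * (230500060000 * (K * lam)) := by
      apply mul_le_mul_of_nonneg_left _ (by linarith)
      linarith
    have h2 : (2 : ℝ) * 1 ≤ n * (K * lam) := mul_le_mul hnR (by linarith) (by norm_num) (by linarith)
    nlinarith
  have e3 : (2 * (n : ℝ) + 1) ^ r ≤ Real.exp (461000000000 * (K * lam)) := by
    have h1 : 2 * (n : ℝ) + 1 ≤ Real.exp (2 * lam) := by
      have : Real.exp (2 * lam) = (2 * n) ^ 2 := by
        rw [← hexpl, ← Real.exp_nat_mul]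
        norm_num
      rw [this]
      nlinarith
    calc (2 * (n : ℝ) + 1) ^ r ≤ (Real.exp (2 * lam)) ^ r :=
          pow_le_pow_left₀ (by positivity) h1 _
      _ = Real.exp (r * (2 * lam)) := by rw [← Real.exp_nat_mul]
      _ ≤ _ := by
          apply Real.exp_le_exp.2
          have : (r : ℝ) * lam ≤ 230500000000 * K * lam :=
            mul_le_mul_of_nonneg_right hr (by linarith)
          linarith
  have e4 : ((2 + 4 * n * (r + k) : ℕ) : ℝ) ^ k ≤ Real.exp (2700000 * (K * lam)) := by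
    have h1 : ((2 + 4 * n * (r + k) : ℕ) : ℝ) ≤ Real.exp (40 + lam + κ) := by
      have hnrk : (n : ℝ) * (r + k) ≤ 230500060000 * (n * K) := by
        calc (n : ℝ) * (r + k) ≤ n * (230500060000 * K) := by gcongr
          _ = _ := by ring
      have hnK1 : (2 : ℝ) * 1 ≤ n * K := mul_le_mul hnR hK (by norm_num) (by linarith)
      have h2 : ((2 + 4 * n * (r + k) : ℕ) : ℝ) ≤ 2 ^ 40 * ((2 * n) * (2 * K)) := by
        push_cast
        have : (2 : ℝ) + 4 * n * (r + k) = 2 + 4 * (n * (r + k)) := by ring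
        rw [this]
        norm_num
        linarith
      have h3 : (2 : ℝ) ^ 40 ≤ Real.exp 40 := by
        calc (2 : ℝ) ^ 40 ≤ (Real.exp 1) ^ 40 := pow_le_pow_left₀ (by norm_num) two_le _
          _ = Real.exp 40 := by
              rw [← Real.exp_nat_mul]
              norm_num
      have h5 : 2 * K = Real.exp κ := by rw [hκ, Real.exp_log hK0]
      rw [h5, ← hexpl] at h2
      rw [Real.exp_add, Real.exp_add]
      refine h2.trans ?_
      rw [← mul_assoc]
      gcongr
    calc ((2 + 4 * n * (r + k) : ℕ) : ℝ) ^ k ≤ (Real.exp (40 + lam + κ)) ^ k :=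
          pow_le_pow_left₀ (by positivity) h1 _
      _ = Real.exp (k * (40 + lam + κ)) := by rw [← Real.exp_nat_mul]
      _ ≤ _ := by
          apply Real.exp_le_exp.2
          calc (k : ℝ) * (40 + lam + κ) ≤ 30000 * κ * (40 + lam + κ) := by gcongr
            _ = 1200000 * κ + 30000 * (κ * lam) + 30000 * κ ^ 2 := by ring
            _ ≤ 1200000 * (2 * K) + 30000 * ((2 * K) * lam) + 30000 * (8 * K) := by gcongr
            _ ≤ 2700000 * (K * lam) := by linarith
  have e5 : Real.exp (32000000 * K) ≤ Real.exp (32000000 * (K * lam)) := by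
    apply Real.exp_le_exp.2
    linarith
  have hp := Real.exp_pos
  calc Real.exp ((120000 * (1 + 2 * n * (r + k)) : ℕ) / n) * (2 * n + 1) ^ r *
      (((2 + 4 * n * (r + k) : ℕ) : ℝ) ^ k * Real.exp (32000000 * K))
      ≤ Real.exp (60000 * (K * lam) + 240000 * (230500060000 * (K * lam))) *
          Real.exp (461000000000 * (K * lam)) *
          (Real.exp (2700000 * (K * lam)) * Real.exp (32000000 * (K * lam))) := by
        refine mul_le_mul (mul_le_mul e2 e3 (by positivity) (hp _).le)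
          (mul_le_mul e4 e5 (hp _).le (hp _).le) (by positivity) (by positivity)
    _ = Real.exp ((60000 * (K * lam) + 240000 * (230500060000 * (K * lam))) +
          461000000000 * (K * lam) + (2700000 * (K * lam) + 32000000 * (K * lam))) := by
        simp only [Real.exp_add]
    _ ≤ _ := by
        rw [Real.rpow_def_of_pos hn0, ← hlam]
        apply Real.exp_le_exp.2
        have : lam * (6 * 10 ^ 16 * K) = 6 * 10 ^ 16 * (K * lam) := by ring
        rw [this]
        norm_num
        linarith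

theorem numericF {n : ℕ} {K : ℝ} (hn : 2 ≤ n) (hK : 1 ≤ K) :
    400 * (100000000000 * (2 * n + 1 : ℕ) * (2 * K ^ 3) ^ (30000 : ℝ)) ^ 3 *
      (2 * n : ℝ) ^ (6 * 10 ^ 16 * K) ≤ (2 * n) ^ (10 ^ 17 * K) := by
  obtain ⟨lam, hlam⟩ : ∃ lam : ℝ, lam = Real.log (2 * n) := ⟨_, rfl⟩
  have hnR : (2 : ℝ) ≤ n := by exact_mod_cast hn
  have hn0 : (0 : ℝ) < 2 * n := by linarith
  have hlam1 : 1 ≤ lam := by
    have h1 : Real.log 4 ≤ lam := by
      rw [hlam]
      exact Real.log_le_log (by norm_num) (by linarith)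
    have h2 : Real.log 4 = 2 * Real.log 2 := by
      rw [show (4 : ℝ) = 2 ^ 2 by norm_num, Real.log_pow]
      norm_num
    have := Real.log_two_gt_d9
    linarith
  have hexpl : Real.exp lam = 2 * n := by rw [hlam, Real.exp_log hn0]
  have hKl : K ≤ K * lam := le_mul_of_one_le_right (by linarith) hlam1
  have hlK : lam ≤ K * lam := le_mul_of_one_le_left (by linarith) hK
  have two_le : (2 : ℝ) ≤ Real.exp 1 := by
    have := Real.add_one_le_exp (1 : ℝ)
    linarith
  have e1 : (400 * 100000000000 ^ 3 : ℝ) ≤ Real.exp 119 := by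
    calc (400 * 100000000000 ^ 3 : ℝ) ≤ 2 ^ 119 := by norm_num
      _ ≤ (Real.exp 1) ^ 119 := pow_le_pow_left₀ (by norm_num) two_le _
      _ = Real.exp 119 := by
          rw [← Real.exp_nat_mul]
          norm_num
  have e2 : ((2 * n + 1 : ℕ) : ℝ) ^ 3 ≤ Real.exp (6 * lam) := by
    have h1 : ((2 * n + 1 : ℕ) : ℝ) ≤ Real.exp (2 * lam) := by
      have : Real.exp (2 * lam) = (2 * n) ^ 2 := by
        rw [← hexpl, ← Real.exp_nat_mul]
        norm_num
      rw [this]
      push_cast
      nlinarith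
    calc ((2 * n + 1 : ℕ) : ℝ) ^ 3 ≤ (Real.exp (2 * lam)) ^ 3 :=
          pow_le_pow_left₀ (by positivity) h1 _
      _ = Real.exp (6 * lam) := by
          rw [← Real.exp_nat_mul]
          congr 1
          push_cast
          ring
  have e3 : ((2 * K ^ 3) ^ (30000 : ℝ)) ^ 3 ≤ Real.exp (540000 * K) := by
    have h1 : 2 * K ^ 3 ≤ Real.exp (6 * K) := by
      have h2 : 2 * K ≤ Real.exp (2 * K) := by
        have := Real.add_one_le_exp (2 * K)
        linarith
      have h3 : (2 * K) ^ 3 ≤ Real.exp (2 * K) ^ 3 := pow_le_pow_left₀ (by linarith) h2 3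
      rw [← Real.exp_nat_mul] at h3
      have h4 : 2 * K ^ 3 ≤ (2 * K) ^ 3 := by
        have : 0 ≤ K ^ 3 := by positivity
        nlinarith
      refine h4.trans (h3.trans (le_of_eq ?_))
      congr 1
      push_cast
      ring
    have h5 : (2 * K ^ 3) ^ (30000 : ℝ) ≤ Real.exp (180000 * K) := by
      calc (2 * K ^ 3) ^ (30000 : ℝ) ≤ (Real.exp (6 * K)) ^ (30000 : ℝ) :=
            Real.rpow_le_rpow (by positivity) h1 (by norm_num)
        _ = Real.exp (180000 * K) := by
            rw [← Real.exp_mul]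
            congr 1
            ring
    calc ((2 * K ^ 3) ^ (30000 : ℝ)) ^ 3 ≤ (Real.exp (180000 * K)) ^ 3 :=
          pow_le_pow_left₀ (by positivity) h5 _
      _ = Real.exp (540000 * K) := by
          rw [← Real.exp_nat_mul]
          congr 1
          push_cast
          ring
  have hp := Real.exp_pos
  have hq : (0 : ℝ) ≤ (2 * n : ℝ) ^ (6 * 10 ^ 16 * K) := Real.rpow_nonneg hn0.le _
  calc 400 * (100000000000 * (2 * n + 1 : ℕ) * (2 * K ^ 3) ^ (30000 : ℝ)) ^ 3 *
      (2 * n : ℝ) ^ (6 * 10 ^ 16 * K)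
      = (400 * 100000000000 ^ 3) * ((2 * n + 1 : ℕ) : ℝ) ^ 3 * ((2 * K ^ 3) ^ (30000 : ℝ)) ^ 3 *
      (2 * n : ℝ) ^ (6 * 10 ^ 16 * K) := by ring
    _ ≤ Real.exp 119 * Real.exp (6 * lam) * Real.exp (540000 * K) *
      (2 * n : ℝ) ^ (6 * 10 ^ 16 * K) := by gcongr
    _ = Real.exp (119 + 6 * lam + 540000 * K + lam * (6 * 10 ^ 16 * K)) := by
        rw [Real.rpow_def_of_pos hn0, ← hlam]
        simp only [Real.exp_add]
    _ ≤ _ := by
        rw [Real.rpow_def_of_pos hn0, ← hlam]
        apply Real.exp_le_exp.2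
        have h1 : lam * (10 ^ 17 * K) = 10 ^ 17 * (K * lam) := by ring
        have h2 : lam * (6 * 10 ^ 16 * K) = 6 * 10 ^ 16 * (K * lam) := by ring
        rw [h1, h2]
        norm_num
        linarith

/-- **The universal groups of sets of small doubling** -/
theorem universal {G : Type*} [AddCommGroup G] [DecidableEq G] {K : ℝ} {A : Finset G}
    (hA : A.Nonempty) (hK : ((A + A).card : ℝ) ≤ K * A.card) {n : ℕ} (hn : 2 ≤ n) :
    ∃ (ρ : ℕ) (T : Type) (_ : AddCommGroup T) (_ : Finite T) (g : G → (Fin ρ →₀ ℤ) × T)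
      (Ψ : (Fin ρ →₀ ℤ) × T →+ G) (a₀ : G), IsoN n A g ∧ (∀ a ∈ A, Ψ (g a) = a - a₀) ∧
      (((n + 1) • A.image (fun x => (g x).1) - n • A.image (fun x => (g x).1)).card : ℝ) *
        Nat.card T ≤ (2 * n) ^ (6 * 10 ^ 16 * K) * A.card := by
  classical
  have hK1 : 1 ≤ K := one_le_K hA hK
  obtain ⟨r, k, d, v, L, H₀, a₀, hr, hk, hH, hvol, hcov⟩ := containS hA hK
  let Φ : (Fin r → ℤ) × (Fin k → ℤ) × H₀ →+ G :=
    { toFun := fun x => ∑ i, x.1 i • d i + ∑ i, x.2.1 i • v i + (x.2.2 : G)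
      map_zero' := by simp
      map_add' := by
        intro x y
        simp only [Prod.fst_add, Prod.snd_add, Pi.add_apply, add_smul, sum_add_distrib,
          AddSubgroup.coe_add]
        abel }
  have hch : ∀ x : G, ∃ z : (Fin r → ℤ) × (Fin k → ℤ) × H₀, x ∈ A →
      ∑ i, |z.1 i| ≤ ((120000 : ℕ) : ℤ) ∧ (∀ i, |z.2.1 i| ≤ ((2 * L i : ℕ) : ℤ)) ∧
        Φ z = x - a₀ := by
    intro x
    by_cases hx : x ∈ A
    · obtain ⟨e, he, c, hc, h, hh, hxe⟩ := hcov x hx
      refine ⟨(e, c, ⟨h, hh⟩), fun _ => ⟨?_, ?_, ?_⟩⟩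
      · exact_mod_cast he
      · intro i
        have := hc i
        push_cast
        exact this
      · change ∑ i, e i • d i + ∑ i, c i • v i + h = x - a₀
        rw [hxe, add_sub_cancel_left]
    · exact ⟨0, fun h => absurd h hx⟩
  choose l hl using hch
  set S : Set ((Fin r → ℤ) × (Fin k → ℤ) × H₀) := {ρ | Φ ρ = 0 ∧
    ∑ i, |ρ.1 i| ≤ ((2 * n * 120000 : ℕ) : ℤ) ∧
      ∀ i, |ρ.2.1 i| ≤ ((4 * n * L i : ℕ) : ℤ)} with hS
  have hf : IsoN n A (fun a => (QuotientAddGroup.mk (l a) :
      ((Fin r → ℤ) × (Fin k → ℤ) × H₀) ⧸ AddSubgroup.closure S)) := by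
    refine quotient_model S Φ l a₀ (fun a ha => (hl a ha).2.2) (fun ρ hρ => hρ.1) ?_
    intro s t hs ht hsn htn h0
    refine ⟨h0, ?_, ?_⟩
    · have h1 := sum_bound1 l s ((120000 : ℕ) : ℤ) fun x hx => (hl x (hs x hx)).1
      have h2 := sum_bound1 l t ((120000 : ℕ) : ℤ) fun x hx => (hl x (ht x hx)).1
      rw [hsn] at h1
      rw [htn] at h2
      calc ∑ i, |(-(s.map l).sum + (t.map l).sum).1 i| ≤
            ∑ i, (|(s.map l).sum.1 i| + |(t.map l).sum.1 i|) := by
            refine sum_le_sum fun i _ => ?_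
            have h3 : (-(s.map l).sum + (t.map l).sum).1 i =
              -((s.map l).sum.1 i) + (t.map l).sum.1 i := rfl
            rw [h3]
            refine (abs_add_le _ _).trans (le_of_eq ?_)
            rw [abs_neg]
        _ ≤ n * ((120000 : ℕ) : ℤ) + n * ((120000 : ℕ) : ℤ) := by
            rw [sum_add_distrib]
            exact add_le_add h1 h2
        _ = _ := by
            push_cast
            ring
    · intro i
      let π : (Fin r → ℤ) × (Fin k → ℤ) × H₀ →+ ℤ :=
        (Pi.evalAddMonoidHom (fun _ : Fin k => ℤ) i).comp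
          ((AddMonoidHom.fst _ _).comp (AddMonoidHom.snd _ _))
      have h1 := sum_bound2 π l s ((2 * L i : ℕ) : ℤ) fun x hx => (hl x (hs x hx)).2.1 i
      have h2 := sum_bound2 π l t ((2 * L i : ℕ) : ℤ) fun x hx => (hl x (ht x hx)).2.1 i
      rw [hsn] at h1
      rw [htn] at h2
      have h4 : |π (-(s.map l).sum + (t.map l).sum)| ≤ ((4 * n * L i : ℕ) : ℤ) := by
        rw [map_add, map_neg]
        refine (abs_add_le _ _).trans ?_
        rw [abs_neg]
        refine (add_le_add h1 h2).trans (le_of_eq ?_)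
        push_cast
        ring
      exact h4
  have hfg : AddGroup.FG (((Fin r → ℤ) × (Fin k → ℤ) × H₀) ⧸ AddSubgroup.closure S) := by
    have h1 : Module.Finite ℤ ((Fin r → ℤ) × (Fin k → ℤ) × H₀) := inferInstance
    have h2 : AddGroup.FG ((Fin r → ℤ) × (Fin k → ℤ) × H₀) := Module.Finite.iff_addGroup_fg.1 h1
    infer_instance
  obtain ⟨ρ, ι, hι, p, hp, e, ⟨f⟩⟩ := AddCommGroup.equiv_free_prod_directSum_zmod
    (((Fin r → ℤ) × (Fin k → ℤ) × H₀) ⧸ AddSubgroup.closure S)
  set F := Fin ρ →₀ ℤ with hF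
  set T := DirectSum ι (fun i => ZMod (p i ^ e i)) with hT
  have hTfin : Finite T := by
    have : ∀ i, NeZero (p i ^ e i) := fun i => ⟨pow_ne_zero _ (hp i).ne_zero⟩
    have : ∀ i, Finite (ZMod (p i ^ e i)) := fun i => inferInstance
    exact Finite.of_equiv _ (DirectSum.addEquivProd (fun i => ZMod (p i ^ e i))).symm.toEquiv
  obtain ⟨g, hgdef⟩ : ∃ g : G → F × T, g = fun a => f (QuotientAddGroup.mk (l a)) := ⟨_, rfl⟩
  have hg : IsoN n A g := by
    intro s t hs ht hsn htn
    rw [← hf s t hs ht hsn htn]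
    have h1 : ∀ s : Multiset G, (s.map g).sum = f ((s.map (fun a => (QuotientAddGroup.mk (l a) :
        ((Fin r → ℤ) × (Fin k → ℤ) × H₀) ⧸ AddSubgroup.closure S))).sum) := by
      intro s
      rw [map_multiset_sum, Multiset.map_map, hgdef]
      rfl
    rw [h1, h1]
    exact f.injective.eq_iff
  have hcount := count (Z := (n + 1) • A.image (fun x => (g x).1) - n • A.image (fun x => (g x).1))
    S (2 * n * 120000) ((2 * n + 1) * 120000) (120000 * (1 + 2 * n * ((r + 1) + k))) L (4 * n)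
    (2 * (2 * n + 1)) (2 + 4 * n * ((r + 1) + k)) (fun ρ hρ => hρ.2.1) (fun ρ hρ => hρ.2.2)
    (by ring_nf; rfl) (by ring_nf; rfl) f (by
      intro z hz
      obtain ⟨b, hb, c, hc, rfl⟩ := mem_sub.1 hz
      obtain ⟨s, hs, hsn, rfl⟩ := mem_nsmul_image _ b hb
      obtain ⟨t, ht, htn, rfl⟩ := mem_nsmul_image _ c hc
      let χ : (Fin r → ℤ) × (Fin k → ℤ) × H₀ →+ F :=
        (AddMonoidHom.fst F T).comp (f.toAddMonoidHom.comp
          (QuotientAddGroup.mk' (AddSubgroup.closure S)))
      have hχ : ∀ u : Multiset G, (u.map (fun x => (g x).1)).sum = χ (u.map l).sum := by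
        intro u
        rw [map_multiset_sum, Multiset.map_map, hgdef]
        rfl
      refine ⟨(s.map l).sum - (t.map l).sum, ?_, ?_, ?_⟩
      · change χ ((s.map l).sum - (t.map l).sum) = _
        rw [map_sub, ← hχ, ← hχ]
      · have h1 := sum_bound1 l s ((120000 : ℕ) : ℤ) fun x hx => (hl x (hs x hx)).1
        have h2 := sum_bound1 l t ((120000 : ℕ) : ℤ) fun x hx => (hl x (ht x hx)).1
        rw [hsn] at h1
        rw [htn] at h2
        calc ∑ i, |((s.map l).sum - (t.map l).sum).1 i| ≤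
              ∑ i, (|(s.map l).sum.1 i| + |(t.map l).sum.1 i|) := by
              refine sum_le_sum fun i _ => ?_
              have h3 : ((s.map l).sum - (t.map l).sum).1 i =
                (s.map l).sum.1 i - (t.map l).sum.1 i := rfl
              rw [h3]
              exact abs_sub _ _
          _ ≤ (n + 1 : ℕ) * ((120000 : ℕ) : ℤ) + n * ((120000 : ℕ) : ℤ) := by
              rw [sum_add_distrib]
              exact add_le_add h1 h2
          _ = _ := by
              push_cast
              ring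
      · intro i
        let π : (Fin r → ℤ) × (Fin k → ℤ) × H₀ →+ ℤ :=
          (Pi.evalAddMonoidHom (fun _ : Fin k => ℤ) i).comp
            ((AddMonoidHom.fst _ _).comp (AddMonoidHom.snd _ _))
        have h1 := sum_bound2 π l s ((2 * L i : ℕ) : ℤ) fun x hx => (hl x (hs x hx)).2.1 i
        have h2 := sum_bound2 π l t ((2 * L i : ℕ) : ℤ) fun x hx => (hl x (ht x hx)).2.1 i
        rw [hsn] at h1
        rw [htn] at h2
        have h4 : |π ((s.map l).sum - (t.map l).sum)| ≤ ((2 * (2 * n + 1) * L i : ℕ) : ℤ) := by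
          rw [map_sub]
          refine (abs_sub _ _).trans ?_
          refine (add_le_add h1 h2).trans (le_of_eq ?_)
          push_cast
          ring
        exact h4)
  let Θ : (((Fin r → ℤ) × (Fin k → ℤ) × H₀) ⧸ AddSubgroup.closure S) →+ G :=
    QuotientAddGroup.lift _ Φ ((AddSubgroup.closure_le _).2 fun ρ hρ => hρ.1)
  refine ⟨ρ, T, inferInstance, hTfin, g, Θ.comp f.symm.toAddMonoidHom, a₀, hg, ?_, ?_⟩
  · intro a ha
    rw [← (hl a ha).2.2]
    have h1 : f.symm (g a) = QuotientAddGroup.mk (l a) := by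
      rw [hgdef]
      exact f.symm_apply_apply _
    change Θ (f.symm (g a)) = Φ (l a)
    rw [h1]
    rfl
  have hball := card_balln r (120000 * (1 + 2 * n * ((r + 1) + k))) (n := n) (by omega)
  have hbox : ((box (2 + 4 * n * ((r + 1) + k)) L).card : ℝ) ≤
      ((2 + 4 * n * ((r + 1) + k) : ℕ) : ℝ) ^ k * ((∏ i, (2 * L i + 1) : ℕ) : ℝ) := by
    exact_mod_cast card_box (by omega) L
  obtain ⟨Z, hZ⟩ : ∃ Z : ℕ, Z = ((n + 1) • A.image (fun x => (g x).1) -
    n • A.image (fun x => (g x).1)).card := ⟨_, rfl⟩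
  rw [← hZ] at hcount ⊢
  have hcountR : (Z : ℝ) * Nat.card T ≤
      (ball r (120000 * (1 + 2 * n * ((r + 1) + k)))).card *
        ((box (2 + 4 * n * ((r + 1) + k)) L).card * Nat.card H₀) := by
    exact_mod_cast hcount
  have hnum := numericE (r := r + 1) hn hK1 (by push_cast; linarith) hk
  generalize 120000 * (1 + 2 * n * ((r + 1) + k)) = m' at hball hcountR hnum
  have hpow : (2 * (n : ℝ) + 1) ^ r ≤ (2 * (n : ℝ) + 1) ^ (r + 1) :=
    pow_le_pow_right₀ (by linarith [Nat.cast_nonneg (α := ℝ) n]) (by omega)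
  calc (Z : ℝ) * Nat.card T ≤ ((ball r m').card : ℝ) *
        ((box (2 + 4 * n * ((r + 1) + k)) L).card * Nat.card H₀) := hcountR
    _ ≤ (Real.exp (m' / n) * (2 * n + 1) ^ (r + 1)) *
        ((((2 + 4 * n * ((r + 1) + k) : ℕ) : ℝ) ^ k * ((∏ i, (2 * L i + 1) : ℕ) : ℝ)) *
          Nat.card H₀) := by
        have := hball.trans (mul_le_mul_of_nonneg_left hpow (Real.exp_pos _).le)
        gcongr
    _ = (Real.exp (m' / n) * (2 * n + 1) ^ (r + 1)) *
        (((2 + 4 * n * ((r + 1) + k) : ℕ) : ℝ) ^ k * (((∏ i, (2 * L i + 1) : ℕ) : ℝ) *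
          Nat.card H₀)) := by ring
    _ ≤ (Real.exp (m' / n) * (2 * n + 1) ^ (r + 1)) *
        (((2 + 4 * n * ((r + 1) + k) : ℕ) : ℝ) ^ k * (Real.exp (32000000 * K) * A.card)) := by
        gcongr
    _ = (Real.exp (m' / n) * (2 * n + 1) ^ (r + 1) *
      (((2 + 4 * n * ((r + 1) + k) : ℕ) : ℝ) ^ k * Real.exp (32000000 * K))) * A.card := by ring
    _ ≤ _ := mul_le_mul_of_nonneg_right hnum (Nat.cast_nonneg _)

theorem tf_finsupp {ρ : ℕ} (j : ℕ) (x : Fin ρ →₀ ℤ) (hj : j ≠ 0) (hx : j • x = 0) : x = 0 := by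
  ext i
  have h1 := DFunLike.congr_fun hx i
  rw [Finsupp.smul_apply, nsmul_eq_mul] at h1
  rcases mul_eq_zero.1 h1 with h | h
  · exact absurd (by exact_mod_cast h) hj
  · exact h

/-- **Models of simply exponential order in every abelian group** -/
theorem expmodel {G : Type*} [AddCommGroup G] [DecidableEq G] {K : ℝ} {A : Finset G}
    (hA : A.Nonempty) (hK : ((A + A).card : ℝ) ≤ K * A.card) {n : ℕ} (hn : 2 ≤ n) :
    ∃ (M : Type) (_ : AddCommGroup M) (_ : Finite M) (φ : G → M),
      (Nat.card M : ℝ) ≤ (2 * n) ^ (10 ^ 17 * K) * A.card ∧ IsoN n A φ := by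
  classical
  have hK1 : 1 ≤ K := one_le_K hA hK
  obtain ⟨ρ, T, _, _, g, Ψ, a₀, hg, -, hsize⟩ := universal hA hK hn
  have hcard : (A.image g).card = A.card := hg.card_image hn
  have hK' : ((A.image g + A.image g).card : ℝ) ≤ K * (A.image g).card := by
    rw [hcard]
    refine le_trans ?_ hK
    exact_mod_cast hg.card_sum hn
  have himg : (A.image g).image Prod.fst = A.image (fun x => (g x).1) := by
    rw [image_image]
    rfl
  rw [← himg] at hsize
  have hTpos : (0 : ℝ) < Nat.card T := by exact_mod_cast Nat.card_pos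
  rw [← le_div_iff₀ hTpos] at hsize
  obtain ⟨m, φ, hm0, hm, hφ⟩ := modelD tf_finsupp hn ((hA.image g).image Prod.fst)
    (proj_doubling (hA.image g) hK') hsize
  have : NeZero m := ⟨hm0.ne'⟩
  refine ⟨ZMod m × T, inferInstance, inferInstance, fun x => (φ (g x).1, (g x).2), ?_,
    hg.comp (prod_model hφ)⟩
  rw [Nat.card_prod, Nat.card_zmod]
  push_cast
  have hnum := numericF (n := n) hn hK1
  push_cast at hm hnum
  calc (m : ℝ) * Nat.card T ≤ (400 * (100000000000 * (2 * n + 1) * (2 * K ^ 3) ^ (30000 : ℝ)) ^ 3 *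
        ((2 * n) ^ (6 * 10 ^ 16 * K) * A.card / Nat.card T)) * Nat.card T := by gcongr
    _ = (400 * (100000000000 * (2 * n + 1) * (2 * K ^ 3) ^ (30000 : ℝ)) ^ 3 *
        (2 * n) ^ (6 * 10 ^ 16 * K)) * A.card := by
        field_simp
    _ ≤ _ := mul_le_mul_of_nonneg_right hnum (Nat.cast_nonneg _)

/-- **Rectification** -/
theorem rectify {G : Type*} [AddCommGroup G] [DecidableEq G] {K : ℝ} {A : Finset G}
    (hA : A.Nonempty) (hK : ((A + A).card : ℝ) ≤ K * A.card) {n : ℕ} (hn : 2 ≤ n)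
    (hG : ∀ H : AddSubgroup G, Finite H → H ≠ ⊥ →
      (2 * n) ^ (10 ^ 17 * K) * (A.card : ℝ) < Nat.card H) :
    ∃ φ : G → ℤ, IsoN n A φ := by
  classical
  have hK1 : 1 ≤ K := one_le_K hA hK
  obtain ⟨ρ, T, _, _, g, Ψ, a₀, hg, hΨ, hsize⟩ := universal hA hK hn
  have hcard : (A.image g).card = A.card := hg.card_image hn
  have hK' : ((A.image g + A.image g).card : ℝ) ≤ K * (A.image g).card := by
    rw [hcard]
    refine le_trans ?_ hK
    exact_mod_cast hg.card_sum hn
  have hT : ∀ t : T, Ψ ((0 : Fin ρ →₀ ℤ), t) = 0 := by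
    intro t
    by_contra hne
    let θ : T →+ G := Ψ.comp (AddMonoidHom.inr (Fin ρ →₀ ℤ) T)
    have hfin : Finite θ.range := Finite.of_surjective _ θ.rangeRestrict_surjective
    have h1 : θ.range ≠ ⊥ := by
      intro h
      have h2 : θ t ∈ θ.range := ⟨t, rfl⟩
      rw [h, AddSubgroup.mem_bot] at h2
      exact hne h2
    have h2 := hG θ.range hfin h1
    have h3 : Nat.card θ.range ≤ Nat.card T :=
      Nat.card_le_card_of_surjective _ θ.rangeRestrict_surjective
    have h4 : (1 : ℝ) ≤ ((n + 1) • A.image (fun x => (g x).1) -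
        n • A.image (fun x => (g x).1)).card := by
      exact_mod_cast (hA.image (fun x => (g x).1)).card_pos.trans_le
        (card_le_iter (hA.image (fun x => (g x).1)) n)
    have h5 : (Nat.card θ.range : ℝ) ≤ Nat.card T := by exact_mod_cast h3
    have h6 : (Nat.card T : ℝ) ≤ ((n + 1) • A.image (fun x => (g x).1) -
        n • A.image (fun x => (g x).1)).card * Nat.card T :=
      le_mul_of_one_le_left (Nat.cast_nonneg _) h4
    have h7 : (2 * n : ℝ) ^ (6 * 10 ^ 16 * K) ≤ (2 * n) ^ (10 ^ 17 * K) := by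
      have hnR : (2 : ℝ) ≤ n := by exact_mod_cast hn
      apply Real.rpow_le_rpow_of_exponent_le (by linarith)
      norm_num
      linarith
    have h8 := mul_le_mul_of_nonneg_right h7 (Nat.cast_nonneg (α := ℝ) A.card)
    linarith
  have hfst : IsoN n A (fun x => (g x).1) := by
    have hmap : ∀ s : Multiset G, (s.map (fun x => (g x).1)).sum = (s.map g).sum.1 := by
      intro s
      induction s using Multiset.induction_on with
      | empty => simp
      | cons a s ih =>
        simp only [Multiset.map_cons, Multiset.sum_cons]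
        rw [ih]
        rfl
    have hsum : ∀ s : Multiset G, (∀ x ∈ s, x ∈ A) → Ψ (s.map g).sum = s.sum - s.card • a₀ := by
      intro s
      induction s using Multiset.induction_on with
      | empty => intro _; simp
      | cons a s ih =>
        intro hs
        rw [Multiset.map_cons, Multiset.sum_cons, map_add, Multiset.sum_cons, Multiset.card_cons,
          hΨ a (hs a (Multiset.mem_cons_self a s)),
          ih fun x hx => hs x (Multiset.mem_cons_of_mem hx), succ_nsmul]
        abel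
    intro s t hs ht hsn htn
    rw [hmap, hmap]
    constructor
    · intro h
      have h1 := hsum s hs
      have h2 := hsum t ht
      rw [hsn] at h1
      rw [htn] at h2
      have h3 : (s.map g).sum = (t.map g).sum +
          ((0 : Fin ρ →₀ ℤ), (s.map g).sum.2 - (t.map g).sum.2) := by
        refine Prod.ext ?_ ?_
        · rw [Prod.fst_add, add_zero]
          exact h
        · rw [Prod.snd_add, add_sub_cancel]
      rw [h3, map_add, hT, add_zero, h2] at h1
      exact (sub_left_inj.1 h1).symm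
    · intro h
      rw [(hg s t hs ht hsn htn).2 h]
  have hc2 : (A.image (fun x => (g x).1)).card = A.card := hfst.card_image hn
  have hK2 : ((A.image (fun x => (g x).1) + A.image (fun x => (g x).1)).card : ℝ) ≤
      K * (A.image (fun x => (g x).1)).card := by
    rw [hc2]
    refine le_trans ?_ hK
    exact_mod_cast hfst.card_sum hn
  obtain ⟨φ, hφ, -⟩ := compressGN tf_finsupp hn (hA.image (fun x => (g x).1)) hK2
  exact ⟨_, hfst.comp hφ⟩

end Pool.Agent.H602.EX
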