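import Pool.Graph.R_pool_sql_team_seeded_f72693b1.W860.FL.Walk
import Pool.Graph.R_seed8.W860.OB.Gap

/-!
# Sparse dissociated sets

The walk lemma of the library (W860.FL.Walk) only uses relations between boundedly many elements.
-/

set_option autoImplicit false

namespace Pool.Agent.H602.EX

open Finset W860.FL
open scoped Pointwise

variable {G : Type*} [AddCommGroup G]

theorem exists_dissS [DecidableEq G] (B : Finset G) (W : Set G) (h0 : (0 : G) ∈ W)
    (hneg : ∀ x ∈ W, -x ∈ W) (m : ℕ) (hm : 1 ≤ m) :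
    ∃ D ⊆ B, (∀ e : G → ℤ, (∀ s, |e s| ≤ 1) → ∑ s ∈ D, |e s| ≤ m → ∑ s ∈ D, e s • s ∈ W →
        ∀ s ∈ D, e s = 0) ∧
      ∀ b ∈ B, ∃ e : G → ℤ, ∑ s ∈ D, |e s| ≤ m ∧ b - ∑ s ∈ D, e s • s ∈ W := by
  classical
  let P : Finset G → Prop := fun D =>
    ∀ e : G → ℤ, (∀ s, |e s| ≤ 1) → ∑ s ∈ D, |e s| ≤ m → ∑ s ∈ D, e s • s ∈ W → ∀ s ∈ D, e s = 0
  obtain ⟨D, hD, hmax⟩ := Finset.exists_max_image (B.powerset.filter P) Finset.card
    ⟨∅, by
      rw [Finset.mem_filter]
      refine ⟨by simp, ?_⟩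
      intro e _ _ _ s hs
      simp at hs⟩
  rw [Finset.mem_filter, Finset.mem_powerset] at hD
  refine ⟨D, hD.1, hD.2, ?_⟩
  intro b hb
  by_cases hbD : b ∈ D
  · refine ⟨fun s => if s = b then 1 else 0, ?_, ?_⟩
    · have : ∑ s ∈ D, |(if s = b then (1 : ℤ) else 0)| = 1 := by
        rw [Finset.sum_eq_single b]
        · simp
        · intro s _ hs; rw [if_neg hs, abs_zero]
        · intro h; exact absurd hbD h
      rw [this]
      exact_mod_cast hm
    · have : ∑ s ∈ D, (if s = b then (1 : ℤ) else 0) • s = b := by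
        rw [Finset.sum_eq_single b]
        · simp
        · intro s _ hs; rw [if_neg hs, zero_smul]
        · intro h; exact absurd hbD h
      rw [this, sub_self]; exact h0
  · have hnot : ¬ P (insert b D) := by
      intro hP
      have h1 := hmax (insert b D) (by
        rw [Finset.mem_filter, Finset.mem_powerset]
        exact ⟨Finset.insert_subset hb hD.1, hP⟩)
      rw [Finset.card_insert_of_notMem hbD] at h1
      omega
    simp only [P] at hnot
    push Not at hnot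
    obtain ⟨e, he1, hem, heW, s, hs, hes⟩ := hnot
    rw [Finset.sum_insert hbD] at heW hem
    have hem' : ∑ s ∈ D, |e s| ≤ m := by
      have := abs_nonneg (e b)
      linarith
    have heb : e b ≠ 0 := by
      intro h
      rw [h, zero_smul, zero_add] at heW
      have h2 := hD.2 e he1 hem' heW
      rcases Finset.mem_insert.1 hs with h3 | h3
      · rw [h3] at hes; exact hes h
      · exact hes (h2 s h3)
    have h3 := abs_le.1 (he1 b)
    have h4 : e b = 1 ∨ e b = -1 := by omega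
    rcases h4 with h4 | h4
    · refine ⟨fun s => -e s, ?_, ?_⟩
      · simp only [abs_neg]
        exact hem'
      · rw [h4, one_smul] at heW
        have e1 : b - ∑ s ∈ D, (-e s) • s = b + ∑ s ∈ D, e s • s := by
          simp only [neg_smul, Finset.sum_neg_distrib, sub_neg_eq_add]
        rw [e1]; exact heW
    · refine ⟨e, hem', ?_⟩
      rw [h4, neg_smul, one_smul] at heW
      have e1 : b - ∑ s ∈ D, e s • s = -(-b + ∑ s ∈ D, e s • s) := by abel
      rw [e1]; exact hneg _ heW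

/-- **Walk lemma.** -/
theorem walkS [DecidableEq G] (A D T : Finset G) (Q W : Set G) (hQW : ∀ x ∈ Q, ∀ y ∈ Q, x - y ∈ W)
    (hA : A.Nonempty) (hD : D.Nonempty) (hcov : ∀ a ∈ A, ∃ t ∈ T, a - t ∈ Q)
    (q j : ℕ)
    (hdiss : ∀ e : G → ℤ, (∀ s, |e s| ≤ 1) → ∑ s ∈ D, |e s| ≤ 4 * j → ∑ s ∈ D, e s • s ∈ W →
      ∀ s ∈ D, e s = 0)
    (hq : q * (A + D).card ≤ D.card * A.card) (hj : 16 * j ≤ D.card)
    (hqj : 16 * j ≤ q) :
    (D.card * q) ^ j ≤ (256 * j ^ 2) ^ j * T.card := by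
  classical
  obtain ⟨A', Z', hA'A, ⟨a, ha⟩, h1, h2⟩ := prune A D q hA hD hq
  set α := (D.card + 3) / 4 with hα
  set β := (q + 3) / 4 with hβ
  have hα' : ∀ b ∈ A', α ≤ (D.filter fun s => b + s ∈ Z').card := by
    intro b hb
    have := h1 b hb
    omega
  have hβ' : ∀ z ∈ Z', β ≤ (D.filter fun s => z - s ∈ A').card := by
    intro z hz
    have := h2 z hz
    omega
  have h3 := NN_count D A' Z' ha hα' hβ' j j le_rfl
  obtain ⟨D₁, hD₁, h4⟩ := colour D j (NN D A' a j) (by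
    rintro ⟨X, Y⟩ hp
    simp only [NN, Finset.mem_filter, Finset.mem_product, Finset.mem_powersetCard] at hp
    exact ⟨hp.1.1.1, hp.1.2.1, hp.1.1.2, hp.1.2.2, hp.2.1⟩)
  -- the map to `T`
  have hch : ∀ b : G, ∃ t : G, b ∈ A → t ∈ T ∧ b - t ∈ Q := by
    intro b
    by_cases hb : b ∈ A
    · obtain ⟨t, ht, h⟩ := hcov b hb
      exact ⟨t, fun _ => ⟨ht, h⟩⟩
    · exact ⟨0, fun h => absurd h hb⟩
  choose τ hτ using hch
  have h5 : ((NN D A' a j).filter fun p => p.1 ⊆ D₁ ∧ Disjoint p.2 D₁).card ≤ T.card := by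
    apply Finset.card_le_card_of_injOn
      (fun p => τ (a + ∑ s ∈ p.1, s - ∑ s ∈ p.2, s))
    · rintro ⟨X, Y⟩ hp
      simp only [Finset.coe_filter, Set.mem_ofPred_eq, NN, Finset.mem_filter] at hp
      exact (hτ _ (hA'A hp.1.2.2)).1
    · rintro ⟨X, Y⟩ hp ⟨X', Y'⟩ hp' heq
      simp only [Finset.coe_filter, Set.mem_ofPred_eq, NN, Finset.mem_filter,
        Finset.mem_product, Finset.mem_powersetCard] at hp hp'
      obtain ⟨⟨⟨⟨hXD, hXc⟩, hYD, hYc⟩, -, hb⟩, hX1, hY1⟩ := hp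
      obtain ⟨⟨⟨⟨hXD', hXc'⟩, hYD', hYc'⟩, -, hb'⟩, hX1', hY1'⟩ := hp'
      simp only at heq
      have hw := hQW _ (hτ _ (hA'A hb)).2 _ (hτ _ (hA'A hb')).2
      rw [heq] at hw
      have hw2 : (a + ∑ s ∈ X, s - ∑ s ∈ Y, s) - (a + ∑ s ∈ X', s - ∑ s ∈ Y', s) ∈ W := by
        have e : (a + ∑ s ∈ X, s - ∑ s ∈ Y, s) - (a + ∑ s ∈ X', s - ∑ s ∈ Y', s) =
          a + ∑ s ∈ X, s - ∑ s ∈ Y, s - τ (a + ∑ s ∈ X', s - ∑ s ∈ Y', s) -
          (a + ∑ s ∈ X', s - ∑ s ∈ Y', s - τ (a + ∑ s ∈ X', s - ∑ s ∈ Y', s)) := by abel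
        rw [e]; exact hw
      let e : G → ℤ := fun s => ((if s ∈ X then 1 else 0) - (if s ∈ Y then 1 else 0)) -
        ((if s ∈ X' then 1 else 0) - (if s ∈ Y' then 1 else 0))
      have hsumX : ∀ B : Finset G, B ⊆ D → ∑ s ∈ D, (if s ∈ B then (1 : ℤ) else 0) • s =
          ∑ s ∈ B, s := by
        intro B hB
        rw [← Finset.sum_filter_add_sum_filter_not D (fun s => s ∈ B)]
        have e1 : ∑ s ∈ D.filter (fun s => s ∈ B), (if s ∈ B then (1 : ℤ) else 0) • s =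
            ∑ s ∈ B, s := by
          have e2 : D.filter (fun s => s ∈ B) = B := by
            ext s
            rw [Finset.mem_filter]
            exact ⟨fun h => h.2, fun h => ⟨hB h, h⟩⟩
          rw [e2]
          apply Finset.sum_congr rfl
          intro s hs
          rw [if_pos hs, one_smul]
        have e3 : ∑ s ∈ D.filter (fun s => s ∉ B), (if s ∈ B then (1 : ℤ) else 0) • s = 0 := by
          apply Finset.sum_eq_zero
          intro s hs
          rw [if_neg (Finset.mem_filter.1 hs).2, zero_smul]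
        rw [e1, e3, add_zero]
      have he1 : ∀ s, |e s| ≤ 1 := by
        intro s
        by_cases hs : s ∈ D₁
        · have y1 : s ∉ Y := fun h => Finset.disjoint_left.1 hY1 h hs
          have y2 : s ∉ Y' := fun h => Finset.disjoint_left.1 hY1' h hs
          simp only [e, if_neg y1, if_neg y2]
          split_ifs <;> simp
        · have x1 : s ∉ X := fun h => hs (hX1 h)
          have x2 : s ∉ X' := fun h => hs (hX1' h)
          simp only [e, if_neg x1, if_neg x2]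
          split_ifs <;> simp
      have he2 : ∑ s ∈ D, e s • s ∈ W := by
        have e4 : ∑ s ∈ D, e s • s =
            (a + ∑ s ∈ X, s - ∑ s ∈ Y, s) - (a + ∑ s ∈ X', s - ∑ s ∈ Y', s) := by
          simp only [e, sub_smul, Finset.sum_sub_distrib]
          rw [hsumX X hXD, hsumX Y hYD, hsumX X' hXD', hsumX Y' hYD']
          abel
        rw [e4]; exact hw2
      have hcnt : ∀ B : Finset G, B ⊆ D → ∑ s ∈ D, (if s ∈ B then (1 : ℤ) else 0) = B.card := by
        intro B hB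
        rw [Finset.sum_ite_mem, Finset.inter_eq_right.2 hB]
        simp
      have he5 : ∑ s ∈ D, |e s| ≤ 4 * j := by
        calc ∑ s ∈ D, |e s| ≤ ∑ s ∈ D, (((if s ∈ X then (1 : ℤ) else 0) +
              (if s ∈ Y then 1 else 0)) + ((if s ∈ X' then 1 else 0) +
              (if s ∈ Y' then 1 else 0))) := by
              apply Finset.sum_le_sum
              intro s _
              simp only [e]
              split_ifs <;> simp
          _ = 4 * j := by
              rw [Finset.sum_add_distrib, Finset.sum_add_distrib, Finset.sum_add_distrib,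
                hcnt X hXD, hcnt Y hYD, hcnt X' hXD', hcnt Y' hYD', hXc, hYc, hXc', hYc']
              ring
      have he3 := hdiss e he1 he5 he2
      have hXX : ∀ s ∈ D, (s ∈ X ↔ s ∈ X') ∧ (s ∈ Y ↔ s ∈ Y') := by
        intro s hs
        have h0 := he3 s hs
        by_cases hs1 : s ∈ D₁
        · have y1 : s ∉ Y := fun h => Finset.disjoint_left.1 hY1 h hs1
          have y2 : s ∉ Y' := fun h => Finset.disjoint_left.1 hY1' h hs1
          simp only [e, if_neg y1, if_neg y2] at h0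
          refine ⟨?_, by simp [y1, y2]⟩
          by_cases hx : s ∈ X <;> by_cases hx' : s ∈ X' <;> simp [hx, hx'] at h0 ⊢
        · have x1 : s ∉ X := fun h => hs1 (hX1 h)
          have x2 : s ∉ X' := fun h => hs1 (hX1' h)
          simp only [e, if_neg x1, if_neg x2] at h0
          refine ⟨by simp [x1, x2], ?_⟩
          by_cases hy : s ∈ Y <;> by_cases hy' : s ∈ Y' <;> simp [hy, hy'] at h0 ⊢
      have r1 : X = X' := by
        ext s
        constructor
        · intro h; exact (hXX s (hXD h)).1.1 h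
        · intro h; exact (hXX s (hXD' h)).1.2 h
      have r2 : Y = Y' := by
        ext s
        constructor
        · intro h; exact (hXX s (hYD h)).2.1 h
        · intro h; exact (hXX s (hYD' h)).2.2 h
      rw [r1, r2]
  have h6 : D.card ≤ 8 * (α - 2 * j) := by omega
  have h7 : q ≤ 8 * (β - 2 * j) := by omega
  calc (D.card * q) ^ j ≤ (64 * ((α - 2 * j) * (β - 2 * j))) ^ j := by
        apply Nat.pow_le_pow_left
        calc D.card * q ≤ (8 * (α - 2 * j)) * (8 * (β - 2 * j)) := Nat.mul_le_mul h6 h7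
          _ = _ := by ring
    _ = 64 ^ j * ((α - 2 * j) * (β - 2 * j)) ^ j := mul_pow _ _ _
    _ ≤ 64 ^ j * ((NN D A' a j).card * (j ^ 2) ^ j) := Nat.mul_le_mul_left _ h3
    _ ≤ 64 ^ j * ((4 ^ j * T.card) * (j ^ 2) ^ j) :=
        Nat.mul_le_mul_left _ (Nat.mul_le_mul_right _ (h4.trans (Nat.mul_le_mul_left _ h5)))
    _ = (256 * j ^ 2) ^ j * T.card := by
        rw [mul_pow 256]
        have : (256 : ℕ) ^ j = 64 ^ j * 4 ^ j := by rw [← mul_pow]; norm_num
        rw [this]; ring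

/-- rank bound -/
theorem rank_boundS [DecidableEq G] (A D T : Finset G) (Q W : Set G)
    (hQW : ∀ x ∈ Q, ∀ y ∈ Q, x - y ∈ W) (hA : A.Nonempty) {K : ℝ} (hK1 : 1 ≤ K)
    (hAD : ((A + D).card : ℝ) ≤ K * A.card) (hcov : ∀ a ∈ A, ∃ t ∈ T, a - t ∈ Q)
    (j : ℕ) (hdiss : ∀ e : G → ℤ, (∀ s, |e s| ≤ 1) → ∑ s ∈ D, |e s| ≤ 4 * j →
      ∑ s ∈ D, e s • s ∈ W → ∀ s ∈ D, e s = 0) (hj : 0 < j) (hT : (T.card : ℝ) ≤ (2 * K) ^ j) :
    (D.card : ℝ) ≤ 256 * (j : ℝ) ^ 2 * K := by
  by_contra hcon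
  push Not at hcon
  have hj1 : (1 : ℝ) ≤ j := by exact_mod_cast hj
  have hj2 : (1 : ℝ) ≤ (j : ℝ) ^ 2 := one_le_pow₀ hj1
  have hDpos : (0 : ℝ) < D.card := by
    have : 0 ≤ 256 * (j : ℝ) ^ 2 * K := by positivity
    linarith
  have hDne : D.Nonempty := by
    rw [← Finset.card_pos]; exact_mod_cast hDpos
  obtain ⟨q, hqdef⟩ : ∃ q : ℕ, q = 256 * j ^ 2 := ⟨_, rfl⟩
  have hqr : (q : ℝ) = 256 * (j : ℝ) ^ 2 := by rw [hqdef]; push_cast; ring
  have hqD : (q : ℝ) ≤ D.card := by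
    rw [hqr]
    have : 256 * (j : ℝ) ^ 2 * 1 ≤ 256 * (j : ℝ) ^ 2 * K :=
      mul_le_mul_of_nonneg_left hK1 (by positivity)
    linarith
  have hqDn : q ≤ D.card := by exact_mod_cast hqD
  have h16 : 16 * j ≤ q := by
    rw [hqdef]; nlinarith
  have hApos : (0 : ℝ) < A.card := by exact_mod_cast hA.card_pos
  have hq : q * (A + D).card ≤ D.card * A.card := by
    have h1 : (q : ℝ) * ((A + D).card : ℝ) ≤ D.card * A.card := by
      calc (q : ℝ) * ((A + D).card : ℝ) ≤ q * (K * A.card) :=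
            mul_le_mul_of_nonneg_left hAD (Nat.cast_nonneg _)
        _ = (256 * (j : ℝ) ^ 2 * K) * A.card := by rw [hqr]; ring
        _ ≤ D.card * A.card := mul_le_mul_of_nonneg_right hcon.le hApos.le
    exact_mod_cast h1
  have h := walkS A D T Q W hQW hA hDne hcov q j hdiss hq (h16.trans hqDn) h16
  rw [← hqdef, mul_pow, mul_comm] at h
  have hqpos : 0 < q ^ j := by
    apply pow_pos
    have : 0 < j ^ 2 := by positivity
    omega
  have h2 : D.card ^ j ≤ T.card := Nat.le_of_mul_le_mul_left h hqpos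
  have h3 : ((D.card : ℝ)) ^ j ≤ (2 * K) ^ j := by
    refine le_trans ?_ hT
    exact_mod_cast h2
  have h4 : (D.card : ℝ) ≤ 2 * K := by
    by_contra h5
    push Not at h5
    have := pow_lt_pow_left₀ h5 (by linarith) hj.ne'
    linarith
  nlinarith

/-- Freiman's theorem with sparse coefficients: `A` is contained in
`a₀ + {∑ e_i d_i : ∑ |e_i| ≤ 120000} + {∑ c_i v_i : |c_i| ≤ 2 L_i} + H₀` with `O(K)` generators `d_i`. -/
theorem containS [DecidableEq G] {K : ℝ} {A : Finset G} (hA : A.Nonempty)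
    (hK : ((A + A).card : ℝ) ≤ K * A.card) :
    ∃ (r k : ℕ) (d : Fin r → G) (v : Fin k → G) (L : Fin k → ℕ) (H₀ : AddSubgroup G) (a₀ : G),
      (r : ℝ) ≤ 230400000000 * K ∧ (k : ℝ) ≤ 30000 * Real.log (2 * K) ∧ Finite H₀ ∧
      ((∏ i, (2 * L i + 1) : ℕ) : ℝ) * (Nat.card H₀ : ℝ) ≤ Real.exp (32000000 * K) * A.card ∧
      ∀ a ∈ A, ∃ e : Fin r → ℤ, ∑ i, |e i| ≤ 120000 ∧ ∃ c : Fin k → ℤ, (∀ i, |c i| ≤ 2 * L i) ∧
        ∃ h ∈ H₀, a = a₀ + (∑ i, e i • d i + ∑ i, c i • v i + h) := by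
  classical
  have hApos : (0 : ℝ) < A.card := by exact_mod_cast hA.card_pos
  have hK1 : 1 ≤ K := by
    have h1 : (A.card : ℝ) ≤ (A + A).card := by
      exact_mod_cast Finset.card_le_card_add_right hA
    nlinarith
  obtain ⟨k, v, L, H₀, T, hk, hH, hvol, hT, hcov⟩ :=
    W860.OB.gap_cover hA hK one_pos le_rfl
  obtain ⟨a₀, ha₀⟩ := hA
  have hA : A.Nonempty := ⟨a₀, ha₀⟩
  let Q : Set G := {x | ∃ c : Fin k → ℤ, (∀ i, |c i| ≤ L i) ∧ ∃ h ∈ H₀, x = ∑ i, c i • v i + h}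
  let W : Set G := {x | ∃ c : Fin k → ℤ, (∀ i, |c i| ≤ 2 * L i) ∧
    ∃ h ∈ H₀, x = ∑ i, c i • v i + h}
  have hQW : ∀ x ∈ Q, ∀ y ∈ Q, x - y ∈ W := by
    rintro x ⟨c, hc, h, hh, rfl⟩ y ⟨c', hc', h', hh', rfl⟩
    refine ⟨fun i => c i - c' i, ?_, h - h', H₀.sub_mem hh hh', ?_⟩
    · intro i
      have h1 := abs_le.1 (hc i)
      have h2 := abs_le.1 (hc' i)
      rw [abs_le]
      constructor <;> linarith
    · simp only [sub_smul, Finset.sum_sub_distrib]
      abel
  have hW0 : (0 : G) ∈ W := by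
    refine ⟨0, fun i => by simp, 0, H₀.zero_mem, by simp⟩
  have hWneg : ∀ x ∈ W, -x ∈ W := by
    rintro x ⟨c, hc, h, hh, rfl⟩
    refine ⟨fun i => -c i, fun i => by rw [abs_neg]; exact hc i, -h, H₀.neg_mem hh, ?_⟩
    simp only [neg_smul, Finset.sum_neg_distrib]
    abel
  obtain ⟨D, hDB, hdiss, hspan⟩ := exists_dissS (A.image fun a => a - a₀) W hW0 hWneg
    120000 (by norm_num)
  have hAD : ((A + D).card : ℝ) ≤ K * A.card := by
    refine le_trans ?_ hK
    have h1 : A + D ⊆ (A + A).image fun z => z - a₀ := by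
      intro z hz
      obtain ⟨a, ha, d, hd, rfl⟩ := Finset.mem_add.1 hz
      obtain ⟨a', ha', rfl⟩ := Finset.mem_image.1 (hDB hd)
      exact Finset.mem_image.2 ⟨a + a', Finset.add_mem_add ha ha', by abel⟩
    exact_mod_cast (Finset.card_le_card h1).trans Finset.card_image_le
  have hcov' : ∀ a ∈ A, ∃ t ∈ T, a - t ∈ Q := by
    intro a ha
    obtain ⟨t, ht, c, hc, h, hh, e⟩ := hcov a ha
    refine ⟨t, ht, c, hc, h, hh, ?_⟩
    rw [e]; abel
  obtain ⟨j, hj⟩ : ∃ j : ℕ, j = 30000 := ⟨_, rfl⟩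
  have hjr : (j : ℝ) = 30000 := by rw [hj]; norm_num
  have hTj : (T.card : ℝ) ≤ (2 * K) ^ j := by
    rw [← Real.rpow_natCast, hjr]
    rw [div_one] at hT
    exact hT
  have hr := rank_boundS A D T Q W hQW hA hK1 hAD hcov' j (by
    intro e he1 he2 he3
    refine hdiss e he1 (he2.trans ?_) he3
    rw [hj]
    norm_num) (by omega) hTj
  have hr' : (D.card : ℝ) ≤ 230400000000 * K := by
    refine hr.trans (le_of_eq ?_)
    rw [hjr]; norm_num
  obtain ⟨r, hrdef⟩ : ∃ r : ℕ, r = D.card := ⟨_, rfl⟩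
  rw [← hrdef] at hr'
  let ι : Fin r ≃ D := (Fin.castOrderIso hrdef).toEquiv.trans D.equivFin.symm
  obtain ⟨κ, hκ⟩ : ∃ κ : ℝ, κ = Real.log (2 * K) := ⟨_, rfl⟩
  have hK0 : (0 : ℝ) < 2 * K := by linarith
  have hκ0 : 0 ≤ κ := by rw [hκ]; exact Real.log_nonneg (by linarith)
  have hκ2 : κ ^ 2 ≤ 8 * K := by
    have h1 : Real.log (2 * K) = 2 * Real.log (Real.sqrt (2 * K)) := by
      rw [Real.log_sqrt hK0.le]; ring
    have h2 : Real.log (Real.sqrt (2 * K)) ≤ Real.sqrt (2 * K) := by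
      have := Real.log_le_sub_one_of_pos (Real.sqrt_pos.2 hK0)
      linarith
    have h3 : κ ≤ 2 * Real.sqrt (2 * K) := by rw [hκ, h1]; linarith
    calc κ ^ 2 ≤ (2 * Real.sqrt (2 * K)) ^ 2 := pow_le_pow_left₀ hκ0 h3 2
      _ = 4 * (Real.sqrt (2 * K)) ^ 2 := by ring
      _ = 8 * K := by rw [Real.sq_sqrt hK0.le]; ring
  rw [div_one] at hk
  refine ⟨r, k, fun i => ((ι i : D) : G), v, L, H₀, a₀, hr', hk, hH, ?_, ?_⟩
  · refine hvol.trans (mul_le_mul_of_nonneg_right (Real.exp_le_exp.2 ?_) hApos.le)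
    rw [← hκ, one_pow, div_one, show (1 + 1 : ℝ) = ((2 : ℕ) : ℝ) by norm_num, Real.rpow_natCast]
    linarith
  · intro a ha
    obtain ⟨e, he, c, hc, h, hh, hx⟩ := hspan (a - a₀) (Finset.mem_image_of_mem _ ha)
    refine ⟨fun i => e (ι i : G), ?_, c, hc, h, hh, ?_⟩
    · have h1 : ∑ i : Fin r, |e (ι i : G)| = ∑ s ∈ D, |e s| := by
        rw [← Finset.sum_coe_sort D (fun s => |e s|)]
        exact Equiv.sum_comp ι (fun s : D => |e (s : G)|)
      rw [h1]
      exact_mod_cast he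
    · have h1 : ∑ i : Fin r, e (ι i : G) • ((ι i : D) : G) = ∑ s ∈ D, e s • s := by
        rw [← Finset.sum_coe_sort D (fun s => e s • s)]
        exact Equiv.sum_comp ι (fun s : D => e (s : G) • (s : G))
      rw [h1]
      have h2 : a = a₀ + ((a - a₀ - ∑ s ∈ D, e s • s) + ∑ s ∈ D, e s • s) := by abel
      rw [h2, hx]
      abel_nf

end Pool.Agent.H602.EX
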